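import Mathlib

/-!
# The average of `(a cos α + b cos β)⁺`
-/

set_option autoImplicit false

noncomputable section

open MeasureTheory Set Real
open scoped NNReal ENNReal

namespace Astro

theorem shift_cos (f : ℝ → ℝ) (φ : ℝ) :
    ∫ β in (-π)..π, f (cos (β - φ)) = ∫ β in (-π)..π, f (cos β) := by
  rw [intervalIntegral.integral_comp_sub_right (fun β => f (cos β)) φ]
  have hp : Function.Periodic (fun β => f (cos β)) (2 * π) := by
    intro β
    simp [cos_add_two_pi]
  have h := hp.intervalIntegral_add_eq (-π - φ) (-π)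
  rw [show -π - φ + 2 * π = π - φ by ring, show -π + 2 * π = π by ring] at h
  exact h

/-- `∫ (a cos α + B)⁺ dα`. -/
def J (a B : ℝ) : ℝ := ∫ α in (-π)..π, max (a * cos α + B) 0

theorem J_neg (a B : ℝ) : J (-a) B = J a B := by
  unfold J
  rw [← shift_cos (fun c => max (a * c + B) 0) π]
  congr 1
  ext α
  rw [cos_sub_pi]
  ring_nf

theorem J_le {a s B : ℝ} (hs : 0 ≤ s) (ha : |a| ≤ s) : J a B ≤ J s B := by
  rcases hs.eq_or_lt with h0 | h0
  · subst h0
    rw [abs_nonpos_iff.mp ha]
  obtain ⟨h1, h2⟩ := abs_le.mp ha
  set l : ℝ := (s + a) / (2 * s) with hl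
  have hl0 : 0 ≤ l := div_nonneg (by linarith) (by linarith)
  have hl1 : l ≤ 1 := by rw [hl, div_le_one (by linarith)]; linarith
  have hla : a = l * s + (1 - l) * (-s) := by rw [hl]; field_simp; ring
  have key : J a B ≤ l * J s B + (1 - l) * J (-s) B := by
    unfold J
    rw [← intervalIntegral.integral_const_mul, ← intervalIntegral.integral_const_mul,
      ← intervalIntegral.integral_add]
    · apply intervalIntegral.integral_mono_on (by linarith [pi_pos])
      · exact Continuous.intervalIntegrable (by fun_prop) _ _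
      · exact Continuous.intervalIntegrable (by fun_prop) _ _
      · intro α _
        have e : a * cos α + B = l * (s * cos α + B) + (1 - l) * (-s * cos α + B) := by
          rw [hla]; ring
        rw [e]
        have m1 : s * cos α + B ≤ max (s * cos α + B) 0 := le_max_left _ _
        have m2 : -s * cos α + B ≤ max (-s * cos α + B) 0 := le_max_left _ _
        have m3 : 0 ≤ max (s * cos α + B) 0 := le_max_right _ _
        have m4 : 0 ≤ max (-s * cos α + B) 0 := le_max_right _ _
        apply max_le
        · exact add_le_add (mul_le_mul_of_nonneg_left m1 hl0)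
            (mul_le_mul_of_nonneg_left m2 (by linarith))
        · exact add_nonneg (mul_nonneg hl0 m3) (mul_nonneg (by linarith) m4)
    · exact Continuous.intervalIntegrable (by fun_prop) _ _
    · exact Continuous.intervalIntegrable (by fun_prop) _ _
  rw [J_neg] at key
  linarith

/-- The inner integral for `a = b = 1`. -/
theorem J_one {β : ℝ} (h0 : 0 ≤ β) (h1 : β ≤ π) :
    J 1 (cos β) = 2 * sin β + 2 * (π - β) * cos β := by
  unfold J
  have hint : ∀ u v : ℝ, IntervalIntegrable (fun α => max (1 * cos α + cos β) 0) volume u v :=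
    fun u v => Continuous.intervalIntegrable (by fun_prop) _ _
  have hpi := pi_pos
  rw [← intervalIntegral.integral_add_adjacent_intervals (hint (-π) 0) (hint 0 π)]
  have e1 : ∫ α in (-π)..0, max (1 * cos α + cos β) 0 = ∫ α in (0)..π, max (1 * cos α + cos β) 0 := by
    have := intervalIntegral.integral_comp_neg (a := 0) (b := π)
      (fun α => max (1 * cos α + cos β) 0)
    simp only [cos_neg, neg_zero] at this
    exact this.symm
  rw [e1]
  have e2 : ∫ α in (0)..π, max (1 * cos α + cos β) 0 = sin β + (π - β) * cos β := by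
    rw [← intervalIntegral.integral_add_adjacent_intervals (hint 0 (π - β)) (hint (π - β) π)]
    have e3 : ∫ α in (0)..(π - β), max (1 * cos α + cos β) 0 =
        ∫ α in (0)..(π - β), (cos α + cos β) := by
      apply intervalIntegral.integral_congr
      intro α hα
      rw [uIcc_of_le (by linarith)] at hα
      simp only [one_mul]
      apply max_eq_left
      have : cos (π - β) ≤ cos α := cos_le_cos_of_nonneg_of_le_pi hα.1 (by linarith) hα.2
      rw [cos_pi_sub] at this
      linarith
    have e4 : ∫ α in (π - β)..π, max (1 * cos α + cos β) 0 = 0 := by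
      have : ∫ α in (π - β)..π, max (1 * cos α + cos β) 0 = ∫ α in (π - β)..π, (0 : ℝ) := by
        apply intervalIntegral.integral_congr
        intro α hα
        rw [uIcc_of_le (by linarith)] at hα
        simp only [one_mul]
        apply max_eq_right
        have : cos α ≤ cos (π - β) := cos_le_cos_of_nonneg_of_le_pi (by linarith) hα.2 hα.1
        rw [cos_pi_sub] at this
        linarith
      rw [this]; simp
    rw [e3, e4, intervalIntegral.integral_add (by simp) (by simp), integral_cos]
    simp [sin_pi_sub]
  rw [e2]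
  ring

theorem J_continuous : Continuous (fun p : ℝ × ℝ => J p.1 p.2) := by
  unfold J
  exact intervalIntegral.continuous_parametric_intervalIntegral_of_continuous' (by fun_prop) _ _

theorem J_smul {s : ℝ} (hs : 0 ≤ s) (a B : ℝ) : J (s * a) (s * B) = s * J a B := by
  unfold J
  rw [← intervalIntegral.integral_const_mul]
  congr 1
  ext α
  rw [show s * a * cos α + s * B = s * (a * cos α + B) by ring, mul_max_of_nonneg _ _ hs]
  simp

/-- The double integral. -/
def G (a b : ℝ) : ℝ := ∫ β in (-π)..π, J a (b * cos β)

theorem G_one : G 1 1 = 16 := by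
  unfold G
  have hint : ∀ u v : ℝ, IntervalIntegrable (fun β => J 1 (1 * cos β)) volume u v :=
    fun u v => (J_continuous.comp (by fun_prop : Continuous fun β : ℝ => ((1 : ℝ), 1 * cos β))).intervalIntegrable _ _
  rw [← intervalIntegral.integral_add_adjacent_intervals (hint (-π) 0) (hint 0 π)]
  have e1 : ∫ β in (-π)..0, J 1 (1 * cos β) = ∫ β in (0)..π, J 1 (1 * cos β) := by
    have := intervalIntegral.integral_comp_neg (a := 0) (b := π) (fun β => J 1 (1 * cos β))
    simp only [cos_neg, neg_zero] at this
    exact this.symm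
  rw [e1]
  have e2 : ∫ β in (0)..π, J 1 (1 * cos β) = 8 := by
    have e3 : ∫ β in (0)..π, J 1 (1 * cos β) =
        ∫ β in (0)..π, (2 * sin β + 2 * (π - β) * cos β) := by
      apply intervalIntegral.integral_congr
      intro β hβ
      rw [uIcc_of_le pi_pos.le] at hβ
      simp only [one_mul]
      exact J_one hβ.1 hβ.2
    rw [e3]
    have hd : ∀ β ∈ uIcc 0 π, HasDerivAt (fun β => -4 * cos β + 2 * (π - β) * sin β)
        (2 * sin β + 2 * (π - β) * cos β) β := by
      intro β _
      have h1 := (hasDerivAt_cos β).const_mul (-4)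
      have h2 : HasDerivAt (fun β : ℝ => 2 * (π - β)) (-2) β := by
        have := ((hasDerivAt_id β).const_sub π).const_mul 2
        simpa using this
      have h3 := h2.mul (hasDerivAt_sin β)
      refine (h1.add h3).congr_deriv ?_
      ring
    rw [intervalIntegral.integral_eq_sub_of_hasDerivAt hd
      (Continuous.intervalIntegrable (by fun_prop) _ _)]
    simp
    norm_num
  rw [e2]
  norm_num

theorem J_convex {s l B₁ B₂ : ℝ} (hl0 : 0 ≤ l) (hl1 : l ≤ 1) :
    J s (l * B₁ + (1 - l) * B₂) ≤ l * J s B₁ + (1 - l) * J s B₂ := by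
  unfold J
  rw [← intervalIntegral.integral_const_mul, ← intervalIntegral.integral_const_mul,
    ← intervalIntegral.integral_add]
  · apply intervalIntegral.integral_mono_on (by linarith [pi_pos])
    · exact Continuous.intervalIntegrable (by fun_prop) _ _
    · exact Continuous.intervalIntegrable (by fun_prop) _ _
    · intro α _
      have e : s * cos α + (l * B₁ + (1 - l) * B₂) =
          l * (s * cos α + B₁) + (1 - l) * (s * cos α + B₂) := by ring
      rw [e]
      have m1 : s * cos α + B₁ ≤ max (s * cos α + B₁) 0 := le_max_left _ _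
      have m2 : s * cos α + B₂ ≤ max (s * cos α + B₂) 0 := le_max_left _ _
      have m3 : 0 ≤ max (s * cos α + B₁) 0 := le_max_right _ _
      have m4 : 0 ≤ max (s * cos α + B₂) 0 := le_max_right _ _
      apply max_le
      · exact add_le_add (mul_le_mul_of_nonneg_left m1 hl0)
          (mul_le_mul_of_nonneg_left m2 (by linarith))
      · exact add_nonneg (mul_nonneg hl0 m3) (mul_nonneg (by linarith) m4)
  · exact Continuous.intervalIntegrable (by fun_prop) _ _
  · exact Continuous.intervalIntegrable (by fun_prop) _ _

theorem J_comp_continuous (a b : ℝ) : Continuous (fun β : ℝ => J a (b * cos β)) :=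
  J_continuous.comp (by fun_prop : Continuous fun β : ℝ => (a, b * cos β))

theorem G_le {a b s : ℝ} (hs : 0 ≤ s) (ha : |a| ≤ s) (hb : |b| ≤ s) : G a b ≤ 16 * s := by
  have hpi := pi_pos
  have h1 : G a b ≤ G s b := by
    unfold G
    apply intervalIntegral.integral_mono_on (by linarith)
    · exact (J_comp_continuous a b).intervalIntegrable _ _
    · exact (J_comp_continuous s b).intervalIntegrable _ _
    · intro β _
      exact J_le hs ha
  have h2 : G s b ≤ G s s := by
    rcases hs.eq_or_lt with h0 | h0
    · subst h0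
      rw [abs_nonpos_iff.mp hb]
    obtain ⟨hb1, hb2⟩ := abs_le.mp hb
    set l : ℝ := (s + b) / (2 * s) with hl
    have hl0 : 0 ≤ l := div_nonneg (by linarith) (by linarith)
    have hl1 : l ≤ 1 := by rw [hl, div_le_one (by linarith)]; linarith
    have hlb : b = l * s + (1 - l) * (-s) := by rw [hl]; field_simp; ring
    have hneg : G s (-s) = G s s := by
      unfold G
      rw [← shift_cos (fun c => J s (s * c)) π]
      congr 1
      ext β
      rw [cos_sub_pi]
      ring_nf
    have key : G s b ≤ l * G s s + (1 - l) * G s (-s) := by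
      unfold G
      rw [← intervalIntegral.integral_const_mul, ← intervalIntegral.integral_const_mul,
        ← intervalIntegral.integral_add]
      · apply intervalIntegral.integral_mono_on (by linarith)
        · exact (J_comp_continuous s b).intervalIntegrable _ _
        · exact ((J_comp_continuous s s).const_mul _ |>.add
            ((J_comp_continuous s (-s)).const_mul _)).intervalIntegrable _ _
        · intro β _
          have e : b * cos β = l * (s * cos β) + (1 - l) * (-s * cos β) := by
            conv_lhs => rw [hlb]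
            ring
          rw [e]
          exact J_convex hl0 hl1
      · exact ((J_comp_continuous s s).const_mul _).intervalIntegrable _ _
      · exact ((J_comp_continuous s (-s)).const_mul _).intervalIntegrable _ _
    rw [hneg] at key
    linarith
  have h3 : G s s = 16 * s := by
    have : G s s = s * G 1 1 := by
      unfold G
      rw [← intervalIntegral.integral_const_mul]
      congr 1
      ext β
      rw [← J_smul hs, mul_one, one_mul]
    rw [this, G_one]
    ring
  linarith

theorem exists_polar (P Q : ℝ) : ∃ φ : ℝ, ∀ α : ℝ,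
    P * cos α + Q * sin α = √(P ^ 2 + Q ^ 2) * cos (α - φ) := by
  set z : ℂ := ⟨P, Q⟩ with hz
  refine ⟨z.arg, fun α => ?_⟩
  have hn : ‖z‖ = √(P ^ 2 + Q ^ 2) := by
    rw [Complex.norm_def, Complex.normSq_apply, hz]
    ring_nf
  have h1 : ‖z‖ * cos z.arg = P := Complex.norm_mul_cos_arg z
  have h2 : ‖z‖ * sin z.arg = Q := Complex.norm_mul_sin_arg z
  rw [← hn, cos_sub]
  calc P * cos α + Q * sin α = (‖z‖ * cos z.arg) * cos α + (‖z‖ * sin z.arg) * sin α := by
        rw [h1, h2]
    _ = _ := by ring

theorem avg_le {P Q P' Q' s : ℝ} (hs : 0 ≤ s) (h1 : P ^ 2 + Q ^ 2 ≤ s ^ 2)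
    (h2 : P' ^ 2 + Q' ^ 2 ≤ s ^ 2) :
    ∫ β in (-π)..π, ∫ α in (-π)..π,
      max (P * cos α + Q * sin α + (P' * cos β + Q' * sin β)) 0 ≤ 16 * s := by
  obtain ⟨φ, hφ⟩ := exists_polar P Q
  obtain ⟨ψ, hψ⟩ := exists_polar P' Q'
  set a := √(P ^ 2 + Q ^ 2)
  set b := √(P' ^ 2 + Q' ^ 2)
  have e : ∫ β in (-π)..π, ∫ α in (-π)..π,
      max (P * cos α + Q * sin α + (P' * cos β + Q' * sin β)) 0 = G a b := by
    unfold G
    rw [← shift_cos (fun c => J a (b * c)) ψ]
    congr 1
    ext β
    unfold J
    rw [← shift_cos (fun c => max (a * c + b * cos (β - ψ)) 0) φ]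
    congr 1
    ext α
    rw [hφ, hψ]
  rw [e]
  apply G_le hs
  · rw [abs_of_nonneg (sqrt_nonneg _)]
    exact (sqrt_le_sqrt h1).trans (by rw [sqrt_sq hs])
  · rw [abs_of_nonneg (sqrt_nonneg _)]
    exact (sqrt_le_sqrt h2).trans (by rw [sqrt_sq hs])

/-- The averaging estimate, for lower integrals. -/
theorem lavg_le {P Q P' Q' s : ℝ} (hs : 0 ≤ s) (h1 : P ^ 2 + Q ^ 2 ≤ s ^ 2)
    (h2 : P' ^ 2 + Q' ^ 2 ≤ s ^ 2) :
    ∫⁻ β in Ioc (-π) π, ∫⁻ α in Ioc (-π) π,
      ENNReal.ofReal (P * cos α + Q * sin α + (P' * cos β + Q' * sin β)) ≤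
      ENNReal.ofReal (16 * s) := by
  have hpi : -π ≤ π := by linarith [pi_pos]
  have inner : ∀ β : ℝ, ∫⁻ α in Ioc (-π) π,
      ENNReal.ofReal (P * cos α + Q * sin α + (P' * cos β + Q' * sin β)) =
      ENNReal.ofReal (∫ α in (-π)..π,
        max (P * cos α + Q * sin α + (P' * cos β + Q' * sin β)) 0) := by
    intro β
    rw [intervalIntegral.integral_of_le hpi, ofReal_integral_eq_lintegral_ofReal]
    · apply lintegral_congr
      intro α
      rw [ENNReal.ofReal_max]
      simp
    · apply Continuous.integrableOn_Ioc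
      fun_prop
    · filter_upwards with α
      exact le_max_right _ _
  simp_rw [inner]
  have hcont : Continuous (fun β : ℝ => ∫ α in (-π)..π,
      max (P * cos α + Q * sin α + (P' * cos β + Q' * sin β)) 0) :=
    intervalIntegral.continuous_parametric_intervalIntegral_of_continuous' (by fun_prop) _ _
  have hnn : ∀ β : ℝ, 0 ≤ ∫ α in (-π)..π,
      max (P * cos α + Q * sin α + (P' * cos β + Q' * sin β)) 0 := fun β =>
    intervalIntegral.integral_nonneg hpi (fun α _ => le_max_right _ _)
  rw [← ofReal_integral_eq_lintegral_ofReal (hcont.integrableOn_Ioc)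
    (Filter.Eventually.of_forall hnn), ← intervalIntegral.integral_of_le hpi]
  exact ENNReal.ofReal_le_ofReal (avg_le hs h1 h2)

end Astro
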