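import Pool.Agent.Lib.H33Astro.Strat

/-!
# The residue argument
-/

set_option autoImplicit false

noncomputable section

open MeasureTheory Metric Set Real Filter Topology
open scoped RealInnerProductSpace NNReal ENNReal

namespace Astro

theorem exists_round (K : ℕ) (hK : 0 < K) (θ : ℝ) : ∃ j : ℤ, |θ - 2 * π / K * j| ≤ π / K := by
  have hpi := pi_pos
  have hK' : (0 : ℝ) < K := by exact_mod_cast hK
  refine ⟨round (θ * K / (2 * π)), ?_⟩
  have h := abs_sub_round (θ * K / (2 * π))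
  have e : θ - 2 * π / K * (round (θ * K / (2 * π)) : ℝ) =
      2 * π / K * (θ * K / (2 * π) - round (θ * K / (2 * π))) := by
    field_simp
  rw [e, abs_mul, abs_of_pos (by positivity)]
  calc 2 * π / K * |θ * K / (2 * π) - round (θ * K / (2 * π))| ≤ 2 * π / K * (1 / 2) :=
        mul_le_mul_of_nonneg_left h (by positivity)
    _ = π / K := by ring

theorem mismatch_small {K : ℕ} [NeZero K] (θ : ℝ) (m : ℤ) (hm : IsCoprime m (K : ℤ)) :
    ∃ x : ZMod K ≃ ZMod K, ∀ i : ZMod K,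
      |sin ((θ - 2 * π / K * ((i.val : ℝ) + m * ((x i).val : ℝ))) / 2)| ≤ sin (π / (2 * K)) := by
  have hpi := pi_pos
  have hK : 0 < K := Nat.pos_of_ne_zero (NeZero.ne K)
  have hK' : (0 : ℝ) < K := by exact_mod_cast hK
  have hK1 : (1 : ℝ) ≤ K := by exact_mod_cast hK
  obtain ⟨j, hj⟩ := exists_round K hK θ
  have hu : IsUnit (m : ZMod K) := by
    obtain ⟨a, b, hab⟩ := hm
    refine IsUnit.of_mul_eq_one (a : ZMod K) ?_
    have h1 : ((a * m + b * (K : ℤ) : ℤ) : ZMod K) = 1 := by rw [hab]; simp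
    push_cast at h1
    rw [ZMod.natCast_self, mul_zero, add_zero] at h1
    rw [mul_comm]; exact h1
  obtain ⟨u, hu⟩ := hu
  let x : ZMod K ≃ ZMod K :=
    { toFun := fun i => (u⁻¹ : (ZMod K)ˣ) * ((j : ZMod K) - i)
      invFun := fun y => (j : ZMod K) - u * y
      left_inv := fun i => by simp
      right_inv := fun y => by simp }
  refine ⟨x, fun i => ?_⟩
  have hx : i + (m : ZMod K) * x i = (j : ZMod K) := by
    rw [← hu]
    simp [x]
  have hdiv : (K : ℤ) ∣ ((i.val : ℤ) + m * ((x i).val : ℤ)) - j := by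
    rw [← ZMod.intCast_zmod_eq_zero_iff_dvd]
    push_cast
    rw [ZMod.natCast_zmod_val, ZMod.natCast_zmod_val, hx, sub_self]
  obtain ⟨z, hz⟩ := hdiv
  have hz' : (i.val : ℝ) + m * ((x i).val : ℝ) = j + K * z := by
    have : (((i.val : ℤ) + m * ((x i).val : ℤ) : ℤ) : ℝ) = ((j + K * z : ℤ) : ℝ) := by
      congr 1; linarith
    push_cast at this
    exact this
  rw [hz']
  have e : (θ - 2 * π / K * (j + K * z)) / 2 = (θ - 2 * π / K * j) / 2 - z * π := by
    field_simp
    ring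
  rw [e, sin_sub_int_mul_pi, abs_mul, abs_zpow, abs_neg, abs_one, one_zpow, one_mul]
  have h1 : |(θ - 2 * π / K * j) / 2| ≤ π / (2 * K) := by
    rw [abs_div, abs_of_pos (show (0 : ℝ) < 2 by norm_num), div_le_iff₀ (by norm_num)]
    calc |θ - 2 * π / K * j| ≤ π / K := hj
      _ = π / (2 * K) * 2 := by field_simp
  have h2 : π / (2 * K) ≤ π / 2 := by
    apply div_le_div_of_nonneg_left hpi.le (by norm_num) (by linarith)
  obtain ⟨h3, h4⟩ := abs_le.mp h1
  rw [abs_le]
  constructor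
  · rw [← sin_neg]
    exact sin_le_sin_of_le_of_le_pi_div_two (by linarith) (by linarith) h3
  · exact sin_le_sin_of_le_of_le_pi_div_two (by linarith) (by linarith) h4

/-- The directions used by a player with epoch labels `ω`. -/
def dir {n : ℕ} (K : ℕ) (ω : ℕ → Fin n) (k : ℕ) : ℝ :=
  2 * π / K * (((ω (k / K) : ℕ) + 1 : ℝ) * (k % K : ℕ))

theorem coprime_diff {n K : ℕ} (hK : ∀ m : ℕ, 1 ≤ m → m ≤ 2 * n → Nat.Coprime m K) {a b : ℕ}
    (ha : a < n) (hb : b < n) (hab : a ≠ b) {s : ℤ} (hs : s = 1 ∨ s = -1) :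
    IsCoprime (((b : ℤ) + 1) - s * ((a : ℤ) + 1)) (K : ℤ) := by
  rw [Int.isCoprime_iff_gcd_eq_one]
  change Nat.Coprime (((b : ℤ) + 1) - s * ((a : ℤ) + 1)).natAbs K
  have h := hK (((b : ℤ) + 1) - s * ((a : ℤ) + 1)).natAbs
  rcases hs with rfl | rfl
  · exact h (by omega) (by omega)
  · exact h (by omega) (by omega)

/-- Sum of the meeting times over the `K` rotated frames. -/
theorem sum_meetTime_le {ρ r : ℝ} {N : E3} (hρ : 0 < ρ) (hr0 : 0 ≤ r) (hr : r ≤ π * ρ) (A : O3)
    (hA : act A e3 = ρ⁻¹ • N) {n K : ℕ} [NeZero K]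
    (hK : ∀ m : ℕ, 1 ≤ m → m ≤ 2 * n → Nat.Coprime m K) (hKr : π * ρ ≤ r * K)
    (ω ω' : ℕ → Fin n) (J : ℕ) (hJ : ω J ≠ ω' J) (g₁ g₂ : O3) :
    ∑ i : ZMod K, meetTime r g₁ (g₂ * (A * rot (2 * π / K * i.val) * A⁻¹))
      (mkPath hρ A hA (dir K ω)) (mkPath hρ A hA (dir K ω')) ≤
    ENNReal.ofReal (ρ * π * (K * (K * J) + K * (K + 1) / 2)) := by
  have hpi := pi_pos
  have hKpos : 0 < K := Nat.pos_of_ne_zero (NeZero.ne K)
  have hK' : (0 : ℝ) < K := by exact_mod_cast hKpos
  set h : O3 := (g₁ * A)⁻¹ * (g₂ * A) with hh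
  obtain ⟨θ, ς, hς, hmeet⟩ := meet_core h
  obtain ⟨s, hs, hsς⟩ : ∃ s : ℤ, (s = 1 ∨ s = -1) ∧ ς = (s : ℝ) := by
    rcases hς with h | h
    · exact ⟨1, Or.inl rfl, by rw [h]; simp⟩
    · exact ⟨-1, Or.inr rfl, by rw [h]; simp⟩
  have hval : (ω J : ℕ) ≠ (ω' J : ℕ) := fun e => hJ (Fin.ext e)
  obtain ⟨x, hx⟩ := mismatch_small (K := K) θ _
    (coprime_diff hK (ω J).2 (ω' J).2 hval hs)
  have hsin : 2 * sin (r / (2 * ρ)) ≥ 2 * sin (π / (2 * K)) := by
    have h1 : π / (2 * K) ≤ r / (2 * ρ) := by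
      rw [div_le_div_iff₀ (by positivity) (by positivity)]
      nlinarith
    have h2 : r / (2 * ρ) ≤ π / 2 := by
      rw [div_le_div_iff₀ (by positivity) (by positivity)]
      nlinarith
    have h3 : -(π / 2) ≤ π / (2 * K) := by
      have : 0 ≤ π / (2 * K) := by positivity
      linarith
    have := sin_le_sin_of_le_of_le_pi_div_two h3 h2 h1
    linarith
  have hterm : ∀ i : ZMod K, meetTime r g₁ (g₂ * (A * rot (2 * π / K * i.val) * A⁻¹))
      (mkPath hρ A hA (dir K ω)) (mkPath hρ A hA (dir K ω')) ≤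
      ENNReal.ofReal (ρ * (π * (K * J + (x i).val + 1))) := by
    intro i
    set b : ℝ := 2 * π / K * i.val with hb
    set k : ℕ := K * J + (x i).val with hk
    obtain ⟨t, ht0, ht1, ht⟩ := hmeet (dir K ω) (fun l => dir K ω' l + b) k
    have hkdiv : k / K = J := by
      rw [hk, Nat.mul_add_div hKpos, Nat.div_eq_of_lt (ZMod.val_lt _), add_zero]
    have hkmod : k % K = (x i).val := by
      rw [hk, Nat.mul_add_mod, Nat.mod_eq_of_lt (ZMod.val_lt _)]
    have hmis : (θ + ς * dir K ω k - (dir K ω' k + b)) / 2 =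
        (θ - 2 * π / K * ((i.val : ℝ) + ((((ω' J : ℕ) : ℤ) + 1) - s * (((ω J : ℕ) : ℤ) + 1) : ℤ) *
          ((x i).val : ℝ))) / 2 := by
      unfold dir
      rw [hkdiv, hkmod, hb, hsς]
      push_cast
      ring
    rw [← act_rot_upath, ← act_mul, hmis] at ht
    have h3 : ((g₁ * A)⁻¹ * (g₂ * (A * rot b * A⁻¹) * A)) = h * rot b := by
      rw [hh]; group
    have h4 := meetTime_le (N := N) hρ hr0 hr A hA g₁ (g₂ * (A * rot b * A⁻¹)) (dir K ω) (dir K ω')
      hsin (t := t) (le_trans (by positivity) ht0) (by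
        rw [h3]
        exact ht.trans (mul_le_mul_of_nonneg_left (hx i) (by norm_num)))
    refine h4.trans (ENNReal.ofReal_le_ofReal ?_)
    apply mul_le_mul_of_nonneg_left _ hρ.le
    calc t ≤ (k + 1) * π := ht1
      _ = π * (K * J + (x i).val + 1) := by rw [hk]; push_cast; ring
  calc _ ≤ ∑ i : ZMod K, ENNReal.ofReal (ρ * (π * (K * J + (x i).val + 1))) :=
        Finset.sum_le_sum (fun i _ => hterm i)
    _ = ∑ y : ZMod K, ENNReal.ofReal (ρ * (π * (K * J + y.val + 1))) :=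
        Equiv.sum_comp x (fun y => ENNReal.ofReal (ρ * (π * (K * J + (y.val : ℝ) + 1))))
    _ = ENNReal.ofReal (∑ y : ZMod K, ρ * (π * (K * J + y.val + 1))) := by
        rw [ENNReal.ofReal_sum_of_nonneg]
        intro y _
        positivity
    _ = _ := by
        congr 1
        have e1 : ∀ y : ZMod K, ρ * (π * (K * J + y.val + 1)) =
            ρ * π * (K * J + 1) + ρ * π * (y.val : ℝ) := by intro y; ring
        simp_rw [e1]
        rw [Finset.sum_add_distrib, ← Finset.mul_sum, Finset.sum_const, Finset.card_univ,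
          ZMod.card, nsmul_eq_mul, ← Finset.mul_sum]
        have e2 : ∑ y : ZMod K, (y.val : ℝ) = K * (K - 1) / 2 := by
          have e3 : ∑ y : ZMod K, (y.val : ℝ) = ∑ l ∈ Finset.range K, (l : ℝ) := by
            obtain ⟨K', rfl⟩ : ∃ K', K = K' + 1 := ⟨K - 1, by omega⟩
            exact (Finset.sum_range (fun l => (l : ℝ))).symm
          rw [e3]
          have e4 := Finset.sum_range_id_mul_two K
          have e5 : ((∑ l ∈ Finset.range K, l : ℕ) : ℝ) * 2 = K * (K - 1) := by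
            rw [← Nat.cast_pred hKpos]
            exact_mod_cast e4
          push_cast at e5
          linarith
        rw [e2]
        ring

end Astro
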