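import Pool.Agent.Lib.H33Astro.Flux

/-!
# The crossing argument
-/

set_option autoImplicit false

noncomputable section

open MeasureTheory Metric Set Real Finset
open scoped RealInnerProductSpace NNReal ENNReal

namespace Astro

theorem clamp_sub_le {L U D p q : ℝ} (hD : |q - p| ≤ D) :
    max L (min U q) - max L (min U p) ≤
      if L - D ≤ p ∧ p < U then max (q - p) 0 else 0 := by
  have h1 := abs_le.mp hD
  split_ifs with h
  · rcases le_total q p with hqp | hqp
    · have : max L (min U q) ≤ max L (min U p) := max_le_max le_rfl (min_le_min le_rfl hqp)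
      have h2 : 0 ≤ max (q - p) 0 := le_max_right _ _
      linarith
    · have h2 : q - p ≤ max (q - p) 0 := le_max_left _ _
      have h3 : max L (min U q) ≤ max L (min U p) + (q - p) := by
        apply max_le
        · have := le_max_left L (min U p); linarith
        · have h5 : min U q ≤ min U p + (q - p) := by
            rcases min_cases U p with ⟨h6, _⟩ | ⟨h6, _⟩
            · rw [h6]; have := min_le_left U q; linarith
            · rw [h6]; have := min_le_right U q; linarith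
          have := le_max_right L (min U p)
          linarith
      linarith
  · rw [not_and_or, not_le, not_lt] at h
    rcases h with h | h
    · have h2 : q ≤ L := by linarith
      have h3 : max L (min U q) = L := max_eq_left ((min_le_right _ _).trans h2)
      have h4 : max L (min U p) = L := max_eq_left ((min_le_right _ _).trans (by linarith))
      rw [h3, h4]; simp
    · have h3 : min U p = U := min_eq_left h
      have h4 : max L (min U q) ≤ max L U := max_le_max le_rfl (min_le_left _ _)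
      rw [h3]
      linarith

/-- If a discrete path goes from below `L` to above `U`, then it gains at least `U - L` from
positive steps starting in the band `[L - D, U)`. -/
theorem crossing {c : ℕ → ℝ} {n m : ℕ} {L U D : ℝ} (hLU : L ≤ U)
    (hstep : ∀ k < n, |c (k + 1) - c k| ≤ D) (h0 : c 0 ≤ L) (hmn : m ≤ n) (hm : U ≤ c m) :
    U - L ≤ ∑ k ∈ Finset.range n,
      (if L - D ≤ c k ∧ c k < U then max (c (k + 1) - c k) 0 else 0) := by
  have h1 : ∑ k ∈ Finset.range m, (max L (min U (c (k + 1))) - max L (min U (c k))) = U - L := by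
    rw [Finset.sum_range_sub (fun k => max L (min U (c k)))]
    have e1 : max L (min U (c m)) = U := by rw [min_eq_left hm, max_eq_right hLU]
    have e2 : max L (min U (c 0)) = L := max_eq_left ((min_le_right _ _).trans h0)
    rw [e1, e2]
  rw [← h1]
  calc ∑ k ∈ Finset.range m, (max L (min U (c (k + 1))) - max L (min U (c k)))
      ≤ ∑ k ∈ Finset.range m,
        (if L - D ≤ c k ∧ c k < U then max (c (k + 1) - c k) 0 else 0) := by
        apply Finset.sum_le_sum
        intro k hk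
        exact clamp_sub_le (hstep k ((Finset.mem_range.mp hk).trans_le hmn))
    _ ≤ _ := by
        apply Finset.sum_le_sum_of_subset_of_nonneg (Finset.range_mono hmn)
        intro k _ _
        split_ifs
        · exact le_max_right _ _
        · exact le_rfl

/-- Decomposition of a short step of a unit vector. -/
theorem step_decomp {x x' : E3} (hx : ‖x‖ = 1) (hx' : ‖x'‖ = 1) {δ : ℝ} (hδ : ‖x' - x‖ ≤ δ) :
    ∃ v : E3, ∃ e : ℝ, ⟪x, v⟫ = 0 ∧ ‖v‖ ≤ δ ∧ 0 ≤ e ∧ e ≤ δ ^ 2 / 2 ∧ x' - x = v - e • x := by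
  have hxx : ⟪x, x⟫ = 1 := by rw [real_inner_self_eq_norm_sq, hx]; norm_num
  set e : ℝ := 1 - ⟪x, x'⟫ with he
  have hn : ‖x' - x‖ ^ 2 = 2 * e := by
    rw [norm_sub_sq_real, hx, hx', he, real_inner_comm]; ring
  have hδ2 : ‖x' - x‖ ^ 2 ≤ δ ^ 2 := pow_le_pow_left₀ (norm_nonneg _) hδ 2
  refine ⟨x' - x + e • x, e, ?_, ?_, ?_, ?_, by abel⟩
  · rw [inner_add_right, inner_sub_right, inner_smul_right, hxx, he]; ring
  · have h1 : ‖x' - x + e • x‖ ^ 2 = ‖x' - x‖ ^ 2 - e ^ 2 := by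
      rw [norm_add_sq_real, inner_smul_right, inner_sub_left, hxx, norm_smul, hx,
        real_inner_comm x x', mul_one, Real.norm_eq_abs, sq_abs]
      rw [he]; ring
    have h2 : ‖x' - x + e • x‖ ^ 2 ≤ δ ^ 2 := by rw [h1]; nlinarith [sq_nonneg e]
    exact (pow_le_pow_iff_left₀ (norm_nonneg _) ((norm_nonneg _).trans hδ) two_ne_zero).mp h2
  · nlinarith [sq_nonneg ‖x' - x‖]
  · linarith

/-- Increment of the inner product. -/
theorem incr_le {x x' y y' : E3} (hx : ‖x‖ = 1) (hx' : ‖x'‖ = 1) (hy : ‖y‖ = 1) (hy' : ‖y'‖ = 1)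
    {δ : ℝ} (h1 : ‖x' - x‖ ≤ δ) (h2 : ‖y' - y‖ ≤ δ) :
    ∃ v w : E3, ⟪x, v⟫ = 0 ∧ ⟪y, w⟫ = 0 ∧ ‖v‖ ≤ δ ∧ ‖w‖ ≤ δ ∧
      ∀ h : O3, ⟪x', act h y'⟫ - ⟪x, act h y⟫ ≤ ⟪v, act h y⟫ + ⟪x, act h w⟫ + 2 * δ ^ 2 := by
  obtain ⟨v, e, hv1, hv2, he0, he1, hv3⟩ := step_decomp hx hx' h1
  obtain ⟨w, f, hw1, hw2, hf0, hf1, hw3⟩ := step_decomp hy hy' h2
  refine ⟨v, w, hv1, hw1, hv2, hw2, fun h => ?_⟩
  have ex : x' = x + (v - e • x) := by rw [← hv3]; abel
  have ey : y' = y + (w - f • y) := by rw [← hw3]; abel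
  have e1 : ⟪x', act h y'⟫ - ⟪x, act h y⟫ = ⟪x' - x, act h y⟫ + ⟪x, act h (y' - y)⟫ +
      ⟪x' - x, act h (y' - y)⟫ := by
    rw [act_sub]
    simp only [inner_sub_left, inner_sub_right]
    ring
  have e2 : ⟪x' - x, act h y⟫ = ⟪v, act h y⟫ - e * ⟪x, act h y⟫ := by
    rw [hv3, inner_sub_left, inner_smul_left]; simp
  have e3 : ⟪x, act h (y' - y)⟫ = ⟪x, act h w⟫ - f * ⟪x, act h y⟫ := by
    rw [hw3, act_sub, act_smul, inner_sub_right, inner_smul_right]
  have e4 : ⟪x' - x, act h (y' - y)⟫ ≤ δ ^ 2 := by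
    have := real_inner_le_norm (x' - x) (act h (y' - y))
    rw [norm_act] at this
    have hδ : 0 ≤ δ := (norm_nonneg _).trans h1
    calc _ ≤ ‖x' - x‖ * ‖y' - y‖ := this
      _ ≤ δ * δ := mul_le_mul h1 h2 (norm_nonneg _) hδ
      _ = δ ^ 2 := by ring
  have e5 : |⟪x, act h y⟫| ≤ 1 := by
    have := abs_real_inner_le_norm x (act h y)
    rw [norm_act, hx, hy] at this
    linarith
  obtain ⟨e6, e7⟩ := abs_le.mp e5
  rw [e1, e2, e3]
  nlinarith

theorem incr_abs_le {x x' y y' : E3} (hx : ‖x‖ = 1) (hy' : ‖y'‖ = 1)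
    {δ : ℝ} (h1 : ‖x' - x‖ ≤ δ) (h2 : ‖y' - y‖ ≤ δ) (h : O3) :
    |⟪x', act h y'⟫ - ⟪x, act h y⟫| ≤ 2 * δ := by
  have e1 : ⟪x', act h y'⟫ - ⟪x, act h y⟫ = ⟪x' - x, act h y'⟫ + ⟪x, act h (y' - y)⟫ := by
    rw [act_sub]
    simp only [inner_sub_left, inner_sub_right]
    ring
  rw [e1]
  have a1 := abs_real_inner_le_norm (x' - x) (act h y')
  have a2 := abs_real_inner_le_norm x (act h (y' - y))
  rw [norm_act, hy'] at a1
  rw [norm_act, hx] at a2
  calc _ ≤ |⟪x' - x, act h y'⟫| + |⟪x, act h (y' - y)⟫| := abs_add_le _ _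
    _ ≤ 2 * δ := by linarith

/-- One term of the crossing functional. -/
def crossTerm (x x' y y' : E3) (a b : ℝ) (h : O3) : ℝ≥0∞ :=
  {h : O3 | a ≤ ⟪x, act h y⟫ ∧ ⟪x, act h y⟫ < b}.indicator
    (fun h => ENNReal.ofReal (⟪x', act h y'⟫ - ⟪x, act h y⟫)) h

theorem measurable_crossTerm (x x' y y' : E3) (a b : ℝ) :
    Measurable (crossTerm x x' y y' a b) := by
  unfold crossTerm
  refine Measurable.indicator ?_ (measurableSet_band x y a b)
  have h1 : Continuous (fun h : O3 => ⟪x', act h y'⟫ - ⟪x, act h y⟫) :=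
    (continuous_const.inner (continuous_act_left y')).sub
      (continuous_const.inner (continuous_act_left y))
  exact h1.measurable.ennreal_ofReal

theorem lintegral_crossTerm_le {x x' y y' : E3} (hx : ‖x‖ = 1) (hx' : ‖x'‖ = 1) (hy : ‖y‖ = 1)
    (hy' : ‖y'‖ = 1) {δ : ℝ} (h1 : ‖x' - x‖ ≤ δ) (h2 : ‖y' - y‖ ≤ δ) {a b : ℝ} (ha : 0 ≤ a)
    (hab : a ≤ b) (hb : b ≤ 1) :
    ∫⁻ h, crossTerm x x' y y' a b h ∂haarO3 ≤
      ENNReal.ofReal ((2 / π ^ 2 * δ * √(1 - a ^ 2) + δ ^ 2) * (b - a)) := by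
  have hδ : 0 ≤ δ := (norm_nonneg _).trans h1
  obtain ⟨v, w, hv, hw, hvn, hwn, hinc⟩ := incr_le hx hx' hy hy' h1 h2
  have hpt : ∀ h : O3, crossTerm x x' y y' a b h ≤ fluxF x y v w a b h +
      {h : O3 | a ≤ ⟪x, act h y⟫ ∧ ⟪x, act h y⟫ < b}.indicator
        (fun _ => ENNReal.ofReal (2 * δ ^ 2)) h := by
    intro h
    unfold crossTerm fluxF
    by_cases hh : h ∈ {h : O3 | a ≤ ⟪x, act h y⟫ ∧ ⟪x, act h y⟫ < b}
    · rw [indicator_of_mem hh, indicator_of_mem hh, indicator_of_mem hh]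
      refine (ENNReal.ofReal_le_ofReal (hinc h)).trans ?_
      exact ENNReal.ofReal_add_le
    · rw [indicator_of_notMem hh]
      exact zero_le
  have hpi := pi_pos
  calc ∫⁻ h, crossTerm x x' y y' a b h ∂haarO3
      ≤ ∫⁻ h, (fluxF x y v w a b h +
      {h : O3 | a ≤ ⟪x, act h y⟫ ∧ ⟪x, act h y⟫ < b}.indicator
        (fun _ => ENNReal.ofReal (2 * δ ^ 2)) h) ∂haarO3 := lintegral_mono hpt
    _ = ∫⁻ h, fluxF x y v w a b h ∂haarO3 +
        ENNReal.ofReal (2 * δ ^ 2) * ENNReal.ofReal ((b - a) / 2) := by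
        rw [lintegral_add_left (measurable_fluxF x y v w a b),
          lintegral_indicator (measurableSet_band _ _ _ _), setLIntegral_const,
          haar_band hx hy ha hab hb]
    _ ≤ ENNReal.ofReal (2 / π ^ 2 * δ * √(1 - a ^ 2) * (b - a)) +
        ENNReal.ofReal (2 * δ ^ 2 * ((b - a) / 2)) := by
        rw [← ENNReal.ofReal_mul (by positivity)]
        exact add_le_add (flux hx hy hv hw hδ hvn hwn ha hab hb) le_rfl
    _ = _ := by
        have h3 : 0 ≤ b - a := by linarith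
        rw [← ENNReal.ofReal_add (by positivity) (by positivity)]
        congr 1
        ring

theorem hit_discrete {x y : ℕ → E3} {n : ℕ} (hx : ∀ k, ‖x k‖ = 1) (hy : ∀ k, ‖y k‖ = 1)
    {δ : ℝ} (hδ : 0 ≤ δ) (hsx : ∀ k < n, ‖x (k + 1) - x k‖ ≤ δ)
    (hsy : ∀ k < n, ‖y (k + 1) - y k‖ ≤ δ)
    {L U : ℝ} (hL : 0 ≤ L - 2 * δ) (hLU : L < U) (hU : U ≤ 1) :
    haarO3 {h | ∃ k ≤ n, U ≤ ⟪x k, act h (y k)⟫} ≤
      ENNReal.ofReal ((1 - L) / 2 + n * ((2 / π ^ 2 * δ * √(1 - (L - 2 * δ) ^ 2) + δ ^ 2) *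
        (U - (L - 2 * δ))) / (U - L)) := by
  have hpi := pi_pos
  set T : O3 → ℝ≥0∞ := fun h => ∑ k ∈ Finset.range n,
    crossTerm (x k) (x (k + 1)) (y k) (y (k + 1)) (L - 2 * δ) U h with hT
  have hsub : {h | ∃ k ≤ n, U ≤ ⟪x k, act h (y k)⟫} ⊆
      {h | L ≤ ⟪x 0, act h (y 0)⟫} ∪ {h | ENNReal.ofReal (U - L) ≤ T h} := by
    rintro h ⟨m, hmn, hm⟩
    by_cases h0 : L ≤ ⟪x 0, act h (y 0)⟫
    · exact Or.inl h0
    · right
      rw [not_le] at h0
      have hcr := crossing (c := fun k => ⟪x k, act h (y k)⟫) (n := n) (m := m) (D := 2 * δ)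
        hLU.le (fun k hk => incr_abs_le (hx k) (hy (k + 1)) (hsx k hk) (hsy k hk) h) h0.le hmn hm
      show ENNReal.ofReal (U - L) ≤ T h
      refine (ENNReal.ofReal_le_ofReal hcr).trans ?_
      rw [ENNReal.ofReal_sum_of_nonneg]
      · apply Finset.sum_le_sum
        intro k _
        unfold crossTerm
        by_cases hh : h ∈ {h : O3 | L - 2 * δ ≤ ⟪x k, act h (y k)⟫ ∧ ⟪x k, act h (y k)⟫ < U}
        · rw [indicator_of_mem hh]
          have hh' : L - 2 * δ ≤ ⟪x k, act h (y k)⟫ ∧ ⟪x k, act h (y k)⟫ < U := hh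
          simp only [hh', and_self, if_true]
          rw [ENNReal.ofReal_max]
          simp
        · rw [indicator_of_notMem hh]
          have hh' : ¬ (L - 2 * δ ≤ ⟪x k, act h (y k)⟫ ∧ ⟪x k, act h (y k)⟫ < U) := hh
          simp only [hh', if_false]
          simp
      · intro k _
        split_ifs
        · exact le_max_right _ _
        · exact le_rfl
  have hTm : Measurable T := Finset.measurable_sum _ (fun k _ => measurable_crossTerm _ _ _ _ _ _)
  have hTint : ∫⁻ h, T h ∂haarO3 ≤ ENNReal.ofReal (n * ((2 / π ^ 2 * δ *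
      √(1 - (L - 2 * δ) ^ 2) + δ ^ 2) * (U - (L - 2 * δ)))) := by
    rw [hT]
    rw [lintegral_finsetSum _ (fun k _ => measurable_crossTerm _ _ _ _ _ _)]
    calc _ ≤ ∑ k ∈ Finset.range n, ENNReal.ofReal ((2 / π ^ 2 * δ *
      √(1 - (L - 2 * δ) ^ 2) + δ ^ 2) * (U - (L - 2 * δ))) := by
          apply Finset.sum_le_sum
          intro k hk
          have hk' := Finset.mem_range.mp hk
          exact lintegral_crossTerm_le (hx k) (hx (k + 1)) (hy k) (hy (k + 1)) (hsx k hk')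
            (hsy k hk') hL (by linarith) hU
      _ = _ := by
          rw [Finset.sum_const, Finset.card_range, nsmul_eq_mul,
            ENNReal.ofReal_mul (Nat.cast_nonneg n), ENNReal.ofReal_natCast]
  have hULpos : 0 < U - L := by linarith
  have hmark : haarO3 {h | ENNReal.ofReal (U - L) ≤ T h} ≤
      ENNReal.ofReal (n * ((2 / π ^ 2 * δ *
      √(1 - (L - 2 * δ) ^ 2) + δ ^ 2) * (U - (L - 2 * δ))) / (U - L)) := by
    have := meas_ge_le_lintegral_div (μ := haarO3) hTm.aemeasurable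
      (ε := ENNReal.ofReal (U - L)) (by rw [Ne, ENNReal.ofReal_eq_zero, not_le]; exact hULpos)
      ENNReal.ofReal_ne_top
    refine this.trans ?_
    rw [ENNReal.ofReal_div_of_pos hULpos]
    exact ENNReal.div_le_div_right hTint _
  refine (measure_mono hsub).trans ((measure_union_le _ _).trans ?_)
  rw [haar_cap (hx 0) (hy 0) (by linarith) (by linarith)]
  have hnn : 0 ≤ (n : ℝ) * ((2 / π ^ 2 * δ *
      √(1 - (L - 2 * δ) ^ 2) + δ ^ 2) * (U - (L - 2 * δ))) / (U - L) := by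
    have : 0 ≤ U - (L - 2 * δ) := by linarith
    positivity
  rw [ENNReal.ofReal_add (by linarith) hnn]
  exact add_le_add le_rfl hmark

end Astro
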