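import Mathlib

/-!
# The astronaut problem: definitions
-/

set_option autoImplicit false

noncomputable section

open MeasureTheory Set Topology
open scoped RealInnerProductSpace NNReal ENNReal

namespace Astro

/-- Euclidean three-space. -/
abbrev E3 := EuclideanSpace ℝ (Fin 3)

/-- The orthogonal group `O(3)`, with its usual topology. -/
abbrev O3 := ↥(Matrix.orthogonalGroup (Fin 3) ℝ)

instance : MeasurableSpace O3 := borel O3
instance : BorelSpace O3 := ⟨rfl⟩

/-- Action of an orthogonal matrix on a vector. -/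
def act (g : O3) (x : E3) : E3 := WithLp.toLp 2 ((g : Matrix (Fin 3) (Fin 3) ℝ).mulVec x.ofLp)

theorem isCompact_O3 : IsCompact (Matrix.orthogonalGroup (Fin 3) ℝ : Set (Matrix (Fin 3) (Fin 3) ℝ)) := by
  have h1 : (Matrix.orthogonalGroup (Fin 3) ℝ : Set (Matrix (Fin 3) (Fin 3) ℝ)) ⊆
      Set.pi univ (fun _ => Set.pi univ (fun _ => Set.Icc (-1 : ℝ) 1)) := by
    intro A hA i _ j _
    have := entry_norm_bound_of_unitary (𝕜 := ℝ) hA i j
    rw [Real.norm_eq_abs, abs_le] at this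
    exact this
  have h2 : IsCompact (Set.pi univ (fun _ : Fin 3 => Set.pi univ (fun _ : Fin 3 => Set.Icc (-1 : ℝ) 1))) :=
    isCompact_univ_pi (fun _ => isCompact_univ_pi (fun _ => isCompact_Icc))
  refine IsCompact.of_isClosed_subset h2 ?_ h1
  have : (Matrix.orthogonalGroup (Fin 3) ℝ : Set (Matrix (Fin 3) (Fin 3) ℝ)) =
      {A | A * star A = 1} := by
    ext A
    exact Matrix.mem_unitaryGroup_iff
  rw [this]
  exact isClosed_eq (by fun_prop) (by fun_prop)

instance : CompactSpace O3 := isCompact_iff_compactSpace.mp isCompact_O3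

/-- The Haar probability measure on `O(3)`. -/
def haarO3 : Measure O3 := Measure.haarMeasure ⊤

/-- Geodesic distance on the sphere of radius `ρ` centred at the origin. -/
def gdist (ρ : ℝ) (x y : E3) : ℝ := ρ * InnerProductGeometry.angle x y

/-- The admissible paths: continuous maps from `[0, ∞)` to the sphere of radius `ρ`, starting at
`N` and `1`-Lipschitz for the geodesic distance. -/
def Paths (ρ : ℝ) (N : E3) : Type :=
  {γ : C(ℝ≥0, E3) // γ 0 = N ∧ (∀ t, ‖γ t‖ = ρ) ∧ ∀ s t, gdist ρ (γ s) (γ t) ≤ dist s t}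

/-- The topology of uniform convergence on compact sets (the compact-open topology). -/
instance (ρ : ℝ) (N : E3) : TopologicalSpace (Paths ρ N) :=
  inferInstanceAs (TopologicalSpace {γ : C(ℝ≥0, E3) // γ 0 = N ∧ (∀ t, ‖γ t‖ = ρ) ∧
    ∀ s t, gdist ρ (γ s) (γ t) ≤ dist s t})

instance (ρ : ℝ) (N : E3) : MeasurableSpace (Paths ρ N) := borel _
instance (ρ : ℝ) (N : E3) : BorelSpace (Paths ρ N) := ⟨rfl⟩

/-- The meeting time of two players with frames `g₁`, `g₂` and private paths `γ₁`, `γ₂`. -/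
def meetTime {ρ : ℝ} {N : E3} (r : ℝ) (g₁ g₂ : O3) (γ₁ γ₂ : Paths ρ N) : ℝ≥0∞ :=
  ⨅ (t : ℝ≥0) (_ : gdist ρ (act g₁ (γ₁.1 t)) (act g₂ (γ₂.1 t)) ≤ r), (t : ℝ≥0∞)

/-- The expected meeting time when both players use the strategy `μ`. -/
def expMeet {ρ : ℝ} {N : E3} (r : ℝ) (μ : Measure (Paths ρ N)) : ℝ≥0∞ :=
  ∫⁻ ω : (O3 × O3) × (Paths ρ N × Paths ρ N), meetTime r ω.1.1 ω.1.2 ω.2.1 ω.2.2
    ∂((haarO3.prod haarO3).prod (μ.prod μ))

/-- The symmetric rendezvous value `R^s(ρ, r)` (with base point `N`). -/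
def value (ρ r : ℝ) (N : E3) : ℝ≥0∞ :=
  ⨅ μ : ProbabilityMeasure (Paths ρ N), expMeet r (μ : Measure (Paths ρ N))

end Astro
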