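import Pool.Agent.Lib.H33Astro.Law
import Pool.Agent.Lib.H33Astro.Avg

/-!
# The flux estimate
-/

set_option autoImplicit false

noncomputable section

open MeasureTheory Metric Set Real
open scoped RealInnerProductSpace NNReal ENNReal

namespace Astro

/-- The third basis vector. -/
def e3 : E3 := EuclideanSpace.single 2 1

@[simp] theorem e3_0 : e3 0 = 0 := by simp [e3]
@[simp] theorem e3_1 : e3 1 = 0 := by simp [e3]
@[simp] theorem e3_2 : e3 2 = 1 := by simp [e3]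

theorem norm_e3 : ‖e3‖ = 1 := by simp [e3]

theorem inner_e3 (x : E3) : ⟪e3, x⟫ = x 2 := by rw [inner3]; simp

/-- Rotation by `α` about the third axis. -/
def rotM (α : ℝ) : Matrix (Fin 3) (Fin 3) ℝ := !![cos α, -sin α, 0; sin α, cos α, 0; 0, 0, 1]

theorem rotM_mem (α : ℝ) : rotM α ∈ Matrix.orthogonalGroup (Fin 3) ℝ := by
  rw [Matrix.mem_orthogonalGroup_iff]
  ext i j
  fin_cases i <;> fin_cases j <;>
    simp [rotM, Matrix.mul_apply, Fin.sum_univ_three] <;>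
    nlinarith [sin_sq_add_cos_sq α]

/-- Rotation by `α` about the third axis. -/
def rot (α : ℝ) : O3 := ⟨rotM α, rotM_mem α⟩

theorem continuous_rot : Continuous rot := by
  refine Continuous.subtype_mk ?_ _
  apply continuous_matrix
  intro i j
  fin_cases i <;> fin_cases j <;> simp [rotM] <;> fun_prop

theorem rot_act_0 (α : ℝ) (x : E3) : act (rot α) x 0 = cos α * x 0 - sin α * x 1 := by
  simp [act, rot, rotM, dotProduct, Fin.sum_univ_three]
  ring

theorem rot_act_1 (α : ℝ) (x : E3) : act (rot α) x 1 = sin α * x 0 + cos α * x 1 := by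
  simp [act, rot, rotM, dotProduct, Fin.sum_univ_three]

theorem rot_act_2 (α : ℝ) (x : E3) : act (rot α) x 2 = x 2 := by
  simp [act, rot, rotM, dotProduct, Fin.sum_univ_three]

theorem rot_act_e3 (α : ℝ) : act (rot α) e3 = e3 := by
  ext i
  fin_cases i
  · exact (rot_act_0 α e3).trans (by simp)
  · exact (rot_act_1 α e3).trans (by simp)
  · exact rot_act_2 α e3

/-- The flux functional. -/
def fluxF (x y v w : E3) (a b : ℝ) (h : O3) : ℝ≥0∞ :=
  {h : O3 | a ≤ ⟪x, act h y⟫ ∧ ⟪x, act h y⟫ < b}.indicator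
    (fun h => ENNReal.ofReal (⟪v, act h y⟫ + ⟪x, act h w⟫)) h

theorem measurableSet_band (x y : E3) (a b : ℝ) :
    MeasurableSet {h : O3 | a ≤ ⟪x, act h y⟫ ∧ ⟪x, act h y⟫ < b} := by
  have hc : Continuous (fun h : O3 => ⟪x, act h y⟫) :=
    continuous_const.inner (continuous_act_left y)
  have h1 : MeasurableSet {h : O3 | a ≤ ⟪x, act h y⟫} :=
    (isClosed_le continuous_const hc).measurableSet
  have h2 : MeasurableSet {h : O3 | ⟪x, act h y⟫ < b} :=
    (isOpen_lt hc continuous_const).measurableSet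
  exact h1.inter h2

theorem measurable_fluxF (x y v w : E3) (a b : ℝ) : Measurable (fluxF x y v w a b) := by
  unfold fluxF
  refine Measurable.indicator ?_ (measurableSet_band x y a b)
  have h1 : Continuous (fun h : O3 => ⟪v, act h y⟫ + ⟪x, act h w⟫) :=
    (continuous_const.inner (continuous_act_left y)).add
      (continuous_const.inner (continuous_act_left w))
  exact h1.measurable.ennreal_ofReal

theorem haar_band {x y : E3} (hx : ‖x‖ = 1) (hy : ‖y‖ = 1) {a b : ℝ} (ha : 0 ≤ a) (hab : a ≤ b)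
    (hb : b ≤ 1) :
    haarO3 {h | a ≤ ⟪x, act h y⟫ ∧ ⟪x, act h y⟫ < b} = ENNReal.ofReal ((b - a) / 2) := by
  have hset : {h : O3 | a ≤ ⟪x, act h y⟫ ∧ ⟪x, act h y⟫ < b} =
      {h | a ≤ ⟪x, act h y⟫} \ {h | b ≤ ⟪x, act h y⟫} := by
    ext h
    simp only [mem_ofPred_eq, mem_sdiff, not_le]
  have hc : Continuous (fun h : O3 => ⟪x, act h y⟫) :=
    continuous_const.inner (continuous_act_left y)
  have hm : MeasurableSet {h : O3 | b ≤ ⟪x, act h y⟫} :=
    (isClosed_le continuous_const hc).measurableSet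
  have hsub : {h : O3 | b ≤ ⟪x, act h y⟫} ⊆ {h | a ≤ ⟪x, act h y⟫} :=
    fun h (hh : b ≤ ⟪x, act h y⟫) => hab.trans hh
  rw [hset, measure_sdiff hsub hm.nullMeasurableSet (measure_ne_top _ _),
    haar_cap hx hy ha (hab.trans hb), haar_cap hx hy (ha.trans hab) hb, ← ENNReal.ofReal_sub _
      (by linarith)]
  congr 1
  ring

theorem fluxF_rot {v w : E3} (a b α β : ℝ) (h : O3) :
    fluxF e3 e3 v w a b (rot α * h * rot β) =
      {h : O3 | a ≤ ⟪e3, act h e3⟫ ∧ ⟪e3, act h e3⟫ < b}.indicator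
      (fun h => ENNReal.ofReal
        ((v 0 * (act h e3) 0 + v 1 * (act h e3) 1) * cos α +
          (v 1 * (act h e3) 0 - v 0 * (act h e3) 1) * sin α + v 2 * (act h e3) 2 +
        (((act h⁻¹ e3) 0 * w 0 + (act h⁻¹ e3) 1 * w 1) * cos β +
          ((act h⁻¹ e3) 1 * w 0 - (act h⁻¹ e3) 0 * w 1) * sin β + (act h⁻¹ e3) 2 * w 2))) h := by
  have e1 : ∀ z : E3, act (rot α * h * rot β) z = act (rot α) (act h (act (rot β) z)) := by
    intro z; rw [act_mul, act_mul]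
  have e2 : act (rot α * h * rot β) e3 = act (rot α) (act h e3) := by
    rw [e1, rot_act_e3]
  have e4 : ⟪e3, act (rot α * h * rot β) e3⟫ = ⟪e3, act h e3⟫ := by
    rw [e2, inner_e3, inner_e3, rot_act_2]
  have e5 : ⟪v, act (rot α * h * rot β) e3⟫ =
      (v 0 * (act h e3) 0 + v 1 * (act h e3) 1) * cos α +
          (v 1 * (act h e3) 0 - v 0 * (act h e3) 1) * sin α + v 2 * (act h e3) 2 := by
    rw [e2, inner3, rot_act_0, rot_act_1, rot_act_2]
    ring
  have e6 : ⟪e3, act (rot α * h * rot β) w⟫ =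
      ((act h⁻¹ e3) 0 * w 0 + (act h⁻¹ e3) 1 * w 1) * cos β +
          ((act h⁻¹ e3) 1 * w 0 - (act h⁻¹ e3) 0 * w 1) * sin β + (act h⁻¹ e3) 2 * w 2 := by
    rw [e1, inner_e3, rot_act_2, ← inner_e3]
    have : ⟪e3, act h (act (rot β) w)⟫ = ⟪act h⁻¹ e3, act (rot β) w⟫ := by
      rw [← inner_act h⁻¹ e3, ← act_mul, inv_mul_cancel, act_one]
    rw [this, inner3, rot_act_0, rot_act_1, rot_act_2]
    ring
  unfold fluxF
  by_cases hh : h ∈ {h : O3 | a ≤ ⟪e3, act h e3⟫ ∧ ⟪e3, act h e3⟫ < b}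
  · rw [indicator_of_mem hh, indicator_of_mem]
    · rw [e5, e6]
    · rw [mem_ofPred_eq, e4]; exact hh
  · rw [indicator_of_notMem hh, indicator_of_notMem]
    intro h2
    rw [mem_ofPred_eq, e4] at h2
    exact hh h2

theorem triple_swap (K : ℝ → ℝ → O3 → ℝ≥0∞)
    (hK : Measurable (fun q : (ℝ × ℝ) × O3 => K q.1.1 q.1.2 q.2)) (I : ℝ≥0∞)
    (hI : ∀ β α, ∫⁻ h, K β α h ∂haarO3 = I) :
    ∫⁻ _ in Ioc (-π) π, ∫⁻ _ in Ioc (-π) π, I =
      ∫⁻ h, (∫⁻ β in Ioc (-π) π, ∫⁻ α in Ioc (-π) π, K β α h) ∂haarO3 := by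
  have s1 : ∀ β : ℝ, ∫⁻ α in Ioc (-π) π, I =
      ∫⁻ h, (∫⁻ α in Ioc (-π) π, K β α h) ∂haarO3 := by
    intro β
    have : ∫⁻ α in Ioc (-π) π, I = ∫⁻ α in Ioc (-π) π, ∫⁻ h, K β α h ∂haarO3 := by
      apply lintegral_congr
      intro α
      exact (hI β α).symm
    rw [this]
    apply lintegral_lintegral_swap
    have h3 : Measurable (fun q : ℝ × O3 => K β q.1 q.2) :=
      hK.comp (by fun_prop : Measurable fun q : ℝ × O3 => ((β, q.1), q.2))
    exact h3.aemeasurable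
  refine (lintegral_congr s1).trans ?_
  apply lintegral_lintegral_swap
  have h3 : Measurable (fun q : (ℝ × O3) × ℝ => K q.1.1 q.2 q.1.2) :=
    hK.comp (by fun_prop : Measurable fun q : (ℝ × O3) × ℝ => ((q.1.1, q.2), q.1.2))
  have h4 : Measurable (fun q : ℝ × O3 => ∫⁻ α in Ioc (-π) π, K q.1 α q.2) :=
    h3.lintegral_prod_right'
  exact h4.aemeasurable

theorem flux_e3 {v w : E3} (hv : v 2 = 0) (hw : w 2 = 0) {δ : ℝ} (hδ : 0 ≤ δ) (hvδ : ‖v‖ ≤ δ)
    (hwδ : ‖w‖ ≤ δ) {a b : ℝ} (ha : 0 ≤ a) (hab : a ≤ b) (hb : b ≤ 1) :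
    ∫⁻ h, fluxF e3 e3 v w a b h ∂haarO3 ≤
      ENNReal.ofReal (2 / π ^ 2 * δ * √(1 - a ^ 2) * (b - a)) := by
  have hpi := pi_pos
  set I : ℝ≥0∞ := ∫⁻ h, fluxF e3 e3 v w a b h ∂haarO3 with hI
  have hinv : ∀ α β : ℝ, ∫⁻ h, fluxF e3 e3 v w a b (rot α * h * rot β) ∂haarO3 = I := by
    intro α β
    have h1 := lintegral_mul_right_eq_self (μ := haarO3)
      (fun h => fluxF e3 e3 v w a b (rot α * h)) (rot β)
    have h2 := lintegral_mul_left_eq_self (μ := haarO3) (fluxF e3 e3 v w a b) (rot α)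
    rw [hI, ← h2, ← h1]
    simp only [mul_assoc]
  have hmeas : Measurable (fun q : (ℝ × ℝ) × O3 =>
      fluxF e3 e3 v w a b (rot q.1.2 * q.2 * rot q.1.1)) := by
    apply (measurable_fluxF e3 e3 v w a b).comp
    apply Continuous.measurable
    exact ((continuous_rot.comp (by fun_prop)).mul continuous_snd).mul
      (continuous_rot.comp (by fun_prop))
  -- double average
  have hvolI : (volume (Ioc (-π) π)) = ENNReal.ofReal (2 * π) := by
    rw [Real.volume_Ioc]; congr 1; ring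
  have key1 : ∫⁻ β in Ioc (-π) π, ∫⁻ α in Ioc (-π) π, I =
      ENNReal.ofReal (4 * π ^ 2) * I := by
    simp only [setLIntegral_const, hvolI]
    rw [mul_assoc, ← ENNReal.ofReal_mul (by positivity), mul_comm]
    congr 2
    ring
  have key2 : ∫⁻ β in Ioc (-π) π, ∫⁻ α in Ioc (-π) π, I =
      ∫⁻ h, (∫⁻ β in Ioc (-π) π, ∫⁻ α in Ioc (-π) π,
        fluxF e3 e3 v w a b (rot α * h * rot β)) ∂haarO3 :=
    triple_swap (fun β α h => fluxF e3 e3 v w a b (rot α * h * rot β)) hmeas I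
      (fun β α => hinv α β)
  -- pointwise estimate
  have hpt : ∀ h : O3, ∫⁻ β in Ioc (-π) π, ∫⁻ α in Ioc (-π) π,
        fluxF e3 e3 v w a b (rot α * h * rot β) ≤
      {h : O3 | a ≤ ⟪e3, act h e3⟫ ∧ ⟪e3, act h e3⟫ < b}.indicator
        (fun _ => ENNReal.ofReal (16 * (δ * √(1 - a ^ 2)))) h := by
    intro h
    by_cases hh : h ∈ {h : O3 | a ≤ ⟪e3, act h e3⟫ ∧ ⟪e3, act h e3⟫ < b}
    · rw [indicator_of_mem hh]
      have hp : (act h e3) 2 = ⟪e3, act h e3⟫ := (inner_e3 _).symm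
      have hq : (act h⁻¹ e3) 2 = ⟪e3, act h e3⟫ := by
        rw [← inner_e3, ← inner_act h e3 (act h⁻¹ e3), ← act_mul, mul_inv_cancel, act_one,
          real_inner_comm]
      have hpn : (act h e3) 0 ^ 2 + (act h e3) 1 ^ 2 + (act h e3) 2 ^ 2 = 1 := by
        rw [← normsq3, norm_act, norm_e3]; norm_num
      have hqn : (act h⁻¹ e3) 0 ^ 2 + (act h⁻¹ e3) 1 ^ 2 + (act h⁻¹ e3) 2 ^ 2 = 1 := by
        rw [← normsq3, norm_act, norm_e3]; norm_num
      have hvn : v 0 ^ 2 + v 1 ^ 2 ≤ δ ^ 2 := by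
        have := normsq3 v
        rw [hv] at this
        have h2 : ‖v‖ ^ 2 ≤ δ ^ 2 := pow_le_pow_left₀ (norm_nonneg _) hvδ 2
        nlinarith
      have hwn : w 0 ^ 2 + w 1 ^ 2 ≤ δ ^ 2 := by
        have := normsq3 w
        rw [hw] at this
        have h2 : ‖w‖ ^ 2 ≤ δ ^ 2 := pow_le_pow_left₀ (norm_nonneg _) hwδ 2
        nlinarith
      have hc : a ^ 2 ≤ ⟪e3, act h e3⟫ ^ 2 := pow_le_pow_left₀ ha hh.1 2
      have hs0 : 0 ≤ 1 - a ^ 2 := by nlinarith [hab.trans hb]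
      have hss : (δ * √(1 - a ^ 2)) ^ 2 = δ ^ 2 * (1 - a ^ 2) := by
        rw [mul_pow, sq_sqrt hs0]
      have hle : ∫⁻ β in Ioc (-π) π, ∫⁻ α in Ioc (-π) π,
          fluxF e3 e3 v w a b (rot α * h * rot β) =
          ∫⁻ β in Ioc (-π) π, ∫⁻ α in Ioc (-π) π, ENNReal.ofReal
        ((v 0 * (act h e3) 0 + v 1 * (act h e3) 1) * cos α +
          (v 1 * (act h e3) 0 - v 0 * (act h e3) 1) * sin α +
        (((act h⁻¹ e3) 0 * w 0 + (act h⁻¹ e3) 1 * w 1) * cos β +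
          ((act h⁻¹ e3) 1 * w 0 - (act h⁻¹ e3) 0 * w 1) * sin β)) := by
        apply lintegral_congr
        intro β
        apply lintegral_congr
        intro α
        rw [fluxF_rot, indicator_of_mem hh, hv, hw]
        simp
      rw [hle]
      apply lavg_le (by positivity)
      · rw [hss]
        have : (v 0 * (act h e3) 0 + v 1 * (act h e3) 1) ^ 2 +
          (v 1 * (act h e3) 0 - v 0 * (act h e3) 1) ^ 2 =
          (v 0 ^ 2 + v 1 ^ 2) * ((act h e3) 0 ^ 2 + (act h e3) 1 ^ 2) := by ring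
        rw [this]
        have h6 : (act h e3) 0 ^ 2 + (act h e3) 1 ^ 2 ≤ 1 - a ^ 2 := by
          rw [hp] at hpn; linarith
        exact mul_le_mul hvn h6 (by positivity) (by positivity)
      · rw [hss]
        have : ((act h⁻¹ e3) 0 * w 0 + (act h⁻¹ e3) 1 * w 1) ^ 2 +
          ((act h⁻¹ e3) 1 * w 0 - (act h⁻¹ e3) 0 * w 1) ^ 2 =
          (w 0 ^ 2 + w 1 ^ 2) * ((act h⁻¹ e3) 0 ^ 2 + (act h⁻¹ e3) 1 ^ 2) := by ring
        rw [this]
        have h6 : (act h⁻¹ e3) 0 ^ 2 + (act h⁻¹ e3) 1 ^ 2 ≤ 1 - a ^ 2 := by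
          rw [hq] at hqn; linarith
        exact mul_le_mul hwn h6 (by positivity) (by positivity)
    · rw [indicator_of_notMem hh]
      have : ∀ α β : ℝ, fluxF e3 e3 v w a b (rot α * h * rot β) = 0 := by
        intro α β
        rw [fluxF_rot, indicator_of_notMem hh]
      simp [this]
  have key3 : ENNReal.ofReal (4 * π ^ 2) * I ≤
      ENNReal.ofReal (16 * (δ * √(1 - a ^ 2))) * ENNReal.ofReal ((b - a) / 2) := by
    rw [← key1, key2]
    refine (lintegral_mono hpt).trans ?_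
    rw [lintegral_indicator (measurableSet_band _ _ _ _), setLIntegral_const,
      haar_band norm_e3 norm_e3 ha hab hb]
  rw [← ENNReal.ofReal_mul (by positivity)] at key3
  have h4 : ENNReal.ofReal (4 * π ^ 2) ≠ 0 := by
    rw [Ne, ENNReal.ofReal_eq_zero, not_le]; positivity
  rw [← ENNReal.mul_le_mul_iff_right h4 ENNReal.ofReal_ne_top]
  refine key3.trans ?_
  rw [← ENNReal.ofReal_mul (by positivity)]
  apply ENNReal.ofReal_le_ofReal
  apply le_of_eq
  field_simp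
  ring

/-- The flux estimate for general unit vectors. -/
theorem flux {x y v w : E3} (hx : ‖x‖ = 1) (hy : ‖y‖ = 1) (hv : ⟪x, v⟫ = 0) (hw : ⟪y, w⟫ = 0)
    {δ : ℝ} (hδ : 0 ≤ δ) (hvδ : ‖v‖ ≤ δ) (hwδ : ‖w‖ ≤ δ) {a b : ℝ} (ha : 0 ≤ a) (hab : a ≤ b)
    (hb : b ≤ 1) :
    ∫⁻ h, fluxF x y v w a b h ∂haarO3 ≤
      ENNReal.ofReal (2 / π ^ 2 * δ * √(1 - a ^ 2) * (b - a)) := by
  obtain ⟨A, hA⟩ := exists_act_eq norm_e3 hx
  obtain ⟨B, hB⟩ := exists_act_eq norm_e3 hy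
  have h1 := lintegral_mul_right_eq_self (μ := haarO3)
      (fun h => fluxF x y v w a b (A * h)) B⁻¹
  have h2 := lintegral_mul_left_eq_self (μ := haarO3) (fluxF x y v w a b) A
  have hA' : act A⁻¹ x = e3 := by rw [← hA, ← act_mul, inv_mul_cancel, act_one]
  have hB' : act B⁻¹ y = e3 := by rw [← hB, ← act_mul, inv_mul_cancel, act_one]
  have hf : ∀ h, fluxF x y v w a b (A * (h * B⁻¹)) =
      fluxF e3 e3 (act A⁻¹ v) (act B⁻¹ w) a b h := by
    intro h
    have e1 : act (A * (h * B⁻¹)) y = act A (act h e3) := by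
      rw [act_mul, act_mul, hB']
    have e2 : ⟪x, act (A * (h * B⁻¹)) y⟫ = ⟪e3, act h e3⟫ := by
      rw [e1, ← hA, inner_act]
    have e4 : ⟪v, act (A * (h * B⁻¹)) y⟫ = ⟪act A⁻¹ v, act h e3⟫ := by
      rw [e1, ← inner_act A (act A⁻¹ v), ← act_mul A A⁻¹, mul_inv_cancel, act_one]
    have e5 : ⟪x, act (A * (h * B⁻¹)) w⟫ = ⟪e3, act h (act B⁻¹ w)⟫ := by
      rw [act_mul, act_mul, ← hA, inner_act]
    unfold fluxF
    by_cases hh : h ∈ {h : O3 | a ≤ ⟪e3, act h e3⟫ ∧ ⟪e3, act h e3⟫ < b}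
    · rw [indicator_of_mem hh, indicator_of_mem]
      · rw [e4, e5]
      · rw [mem_ofPred_eq, e2]; exact hh
    · rw [indicator_of_notMem hh, indicator_of_notMem]
      intro h3
      rw [mem_ofPred_eq, e2] at h3
      exact hh h3
  rw [← h2, ← h1]
  simp_rw [hf]
  apply flux_e3 _ _ hδ _ _ ha hab hb
  · rw [← inner_e3, ← hA', inner_act, hv]
  · rw [← inner_e3, ← hB', inner_act, hw]
  · rw [norm_act]; exact hvδ
  · rw [norm_act]; exact hwδ

end Astro
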