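import Pool.Agent.Lib.H33Astro.Defs

/-!
# Haar measure on `O(3)` and its action
-/

set_option autoImplicit false

noncomputable section

open MeasureTheory Set Topology
open scoped RealInnerProductSpace NNReal ENNReal

namespace Astro

instance : (haarO3).IsHaarMeasure := by unfold haarO3; infer_instance

instance : IsProbabilityMeasure haarO3 := by
  constructor
  have : haarO3 ((⊤ : TopologicalSpace.PositiveCompacts O3) : Set O3) = 1 :=
    Measure.haarMeasure_self
  simpa using this

instance : (haarO3).IsMulRightInvariant := by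
  constructor
  intro g
  have : IsProbabilityMeasure (Measure.map (· * g) haarO3) :=
    Measure.isProbabilityMeasure_map (by fun_prop)
  exact Measure.isHaarMeasure_eq_of_isProbabilityMeasure _ _

theorem act_add (g : O3) (x y : E3) : act g (x + y) = act g x + act g y := by
  simp [act, Matrix.mulVec_add]

theorem act_smul (g : O3) (c : ℝ) (x : E3) : act g (c • x) = c • act g x := by
  simp [act, Matrix.mulVec_smul]

theorem act_sub (g : O3) (x y : E3) : act g (x - y) = act g x - act g y := by
  simp [act, Matrix.mulVec_sub]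

theorem act_neg (g : O3) (x : E3) : act g (-x) = -act g x := by
  simp [act, Matrix.mulVec_neg]

theorem act_zero (g : O3) : act g 0 = 0 := by
  simp [act]

@[simp] theorem act_one (x : E3) : act 1 x = x := by
  simp [act]

theorem act_mul (g h : O3) (x : E3) : act (g * h) x = act g (act h x) := by
  simp [act, Matrix.mulVec_mulVec]

theorem inner_act (g : O3) (x y : E3) : ⟪act g x, act g y⟫ = ⟪x, y⟫ := by
  have h : star (g : Matrix (Fin 3) (Fin 3) ℝ) * (g : Matrix (Fin 3) (Fin 3) ℝ) = 1 :=
    Matrix.mem_unitaryGroup_iff'.mp g.2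
  have h' : (g : Matrix (Fin 3) (Fin 3) ℝ).transpose * (g : Matrix (Fin 3) (Fin 3) ℝ) = 1 := by
    rw [← h]; rfl
  simp only [act, EuclideanSpace.inner_eq_star_dotProduct, star_trivial]
  rw [Matrix.dotProduct_mulVec, ← Matrix.mulVec_transpose, Matrix.mulVec_mulVec, h',
    Matrix.one_mulVec]

theorem norm_act (g : O3) (x : E3) : ‖act g x‖ = ‖x‖ := by
  have := inner_act g x x
  rw [real_inner_self_eq_norm_sq, real_inner_self_eq_norm_sq] at this
  exact (pow_left_inj₀ (norm_nonneg _) (norm_nonneg _) two_ne_zero).mp this

theorem angle_act (g : O3) (x y : E3) :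
    InnerProductGeometry.angle (act g x) (act g y) = InnerProductGeometry.angle x y := by
  simp only [InnerProductGeometry.angle, inner_act, norm_act]

theorem continuous_act : Continuous (fun p : O3 × E3 => act p.1 p.2) := by
  unfold act
  have h1 : Continuous (fun p : O3 × E3 => (p.1 : Matrix (Fin 3) (Fin 3) ℝ)) := by fun_prop
  have h2 : Continuous (fun p : O3 × E3 => p.2.ofLp) := by fun_prop
  exact (PiLp.continuous_toLp 2 _).comp (h1.matrix_mulVec h2)

/-- Every linear isometry of `E3` is given by an orthogonal matrix. -/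
theorem exists_act (L : E3 ≃ₗᵢ[ℝ] E3) : ∃ g : O3, ∀ x, act g x = L x := by
  let b := EuclideanSpace.basisFun (Fin 3) ℝ
  refine ⟨⟨L.toLinearEquiv.toLinearMap.toMatrix b.toBasis b.toBasis,
    LinearIsometryEquiv.toMatrix_mem_unitaryGroup L b b⟩, fun x => ?_⟩
  have h := LinearMap.toMatrix_mulVec_repr b.toBasis b.toBasis L.toLinearEquiv.toLinearMap x
  unfold act
  apply (WithLp.ofLp_injective 2)
  simp only
  have hr : ∀ y : E3, (b.toBasis.repr y : Fin 3 → ℝ) = y.ofLp := by
    intro y
    ext i
    simp [b]
  rw [hr, hr] at h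
  exact h

end Astro
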