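import Pool.Agent.Lib.H33Astro.Cross

/-!
# The probability of a meeting before time `t`
-/

set_option autoImplicit false

noncomputable section

open MeasureTheory Metric Set Real Filter Topology
open scoped RealInnerProductSpace NNReal ENNReal

namespace Astro

/-- The bound with parameters. -/
def bnd (u η K δ : ℝ) : ℝ :=
  (1 - (u - η)) / 2 + K * ((2 / π ^ 2 * √(1 - (u - η - 2 * δ) ^ 2) + δ) * (η / (η - 2 * δ)))

theorem hit_grid {x y : ℝ≥0 → E3} (hx : ∀ s, ‖x s‖ = 1) (hy : ∀ s, ‖y s‖ = 1) {κ : ℝ}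
    (hκ : 0 ≤ κ) (hLx : ∀ s t, ‖x s - x t‖ ≤ κ * dist s t)
    (hLy : ∀ s t, ‖y s - y t‖ ≤ κ * dist s t) (t : ℝ≥0) {u η : ℝ} (hu1 : u ≤ 1) {n : ℕ} (hn : 0 < n)
    (h1 : 2 * (κ * t / n) < η) (h2 : 0 ≤ u - η - 2 * (κ * t / n)) :
    haarO3 {h | ∃ s ≤ t, u ≤ ⟪x s, act h (y s)⟫} ≤
      ENNReal.ofReal (bnd u η (κ * t) (κ * t / n)) := by
  set δ : ℝ := κ * t / n with hδ
  have hn' : (0 : ℝ) < n := by exact_mod_cast hn
  have hδ0 : 0 ≤ δ := by positivity
  let g : ℕ → ℝ≥0 := fun k => (k : ℝ≥0) * (t / n)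
  have hg : ∀ k, dist (g (k + 1)) (g k) = t / n := by
    intro k
    rw [NNReal.dist_eq]
    simp only [g]
    push_cast
    rw [show ((k : ℝ) + 1) * (t / n) - k * (t / n) = t / n by ring]
    exact abs_of_nonneg (by positivity)
  have hstep : ∀ {z : ℝ≥0 → E3}, (∀ s t, ‖z s - z t‖ ≤ κ * dist s t) →
      ∀ k, ‖z (g (k + 1)) - z (g k)‖ ≤ δ := by
    intro z hz k
    refine (hz _ _).trans ?_
    rw [hg, hδ]
    exact le_of_eq (by ring)
  have hsub : {h | ∃ s ≤ t, u ≤ ⟪x s, act h (y s)⟫} ⊆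
      {h | ∃ k ≤ n, u - 2 * δ ≤ ⟪x (g k), act h (y (g k))⟫} := by
    rintro h ⟨s, hst, hs⟩
    -- the grid point
    have : ∃ k ≤ n, dist s (g k) ≤ t / n := by
      rcases eq_or_ne t 0 with ht | ht
      · refine ⟨0, Nat.zero_le _, ?_⟩
        have : s = 0 := le_antisymm (hst.trans ht.le) (zero_le)
        simp [g, this, ht]
      · have htn : (0 : ℝ) < t / n := by
          have : (0 : ℝ) < t := by exact_mod_cast pos_iff_ne_zero.mpr ht
          positivity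
        refine ⟨⌊(s : ℝ) / (t / n)⌋₊, ?_, ?_⟩
        · apply Nat.floor_le_of_le
          rw [div_le_iff₀ htn]
          have : (s : ℝ) ≤ t := by exact_mod_cast hst
          calc (s : ℝ) ≤ t := this
            _ = n * (t / n) := by field_simp
        · have f1 := Nat.floor_le (show 0 ≤ (s : ℝ) / (t / n) by positivity)
          have f2 := Nat.lt_floor_add_one ((s : ℝ) / (t / n))
          rw [le_div_iff₀ htn] at f1
          rw [div_lt_iff₀ htn] at f2
          rw [NNReal.dist_eq, abs_le]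
          simp only [g]
          push_cast
          constructor <;> nlinarith
    obtain ⟨k, hk, hd⟩ := this
    refine ⟨k, hk, ?_⟩
    have hd' : κ * dist (g k) s ≤ δ := by
      rw [dist_comm, hδ]
      calc κ * dist s (g k) ≤ κ * (t / n) := mul_le_mul_of_nonneg_left hd hκ
        _ = κ * t / n := by ring
    have := incr_abs_le (x := x s) (x' := x (g k)) (y := y s) (y' := y (g k)) (hx s) (hy _)
      ((hLx _ _).trans hd') ((hLy _ _).trans hd') h
    have h3 := (abs_le.mp this).1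
    linarith
  have hmain := hit_discrete (x := fun k => x (g k)) (y := fun k => y (g k)) (n := n)
    (fun k => hx _) (fun k => hy _) hδ0 (fun k _ => hstep hLx k) (fun k _ => hstep hLy k)
    (L := u - η) (U := u - 2 * δ) (by linarith) (by linarith) (by linarith)
  refine (measure_mono hsub).trans (hmain.trans ?_)
  apply ENNReal.ofReal_le_ofReal
  apply le_of_eq
  unfold bnd
  have hne : η - 2 * δ ≠ 0 := by linarith
  have e1 : u - 2 * δ - (u - η) = η - 2 * δ := by ring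
  have e2 : u - 2 * δ - (u - η - 2 * δ) = η := by ring
  have e3 : (n : ℝ) * δ = κ * t := by rw [hδ]; field_simp
  rw [e1, e2]
  congr 1
  have key : (n : ℝ) * ((2 / π ^ 2 * δ * √(1 - (u - η - 2 * δ) ^ 2) + δ ^ 2) * η) =
      κ * t * ((2 / π ^ 2 * √(1 - (u - η - 2 * δ) ^ 2) + δ) * η) := by
    rw [← e3]; ring
  rw [key]
  ring

theorem hit_eta {x y : ℝ≥0 → E3} (hx : ∀ s, ‖x s‖ = 1) (hy : ∀ s, ‖y s‖ = 1) {κ : ℝ}
    (hκ : 0 ≤ κ) (hLx : ∀ s t, ‖x s - x t‖ ≤ κ * dist s t)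
    (hLy : ∀ s t, ‖y s - y t‖ ≤ κ * dist s t) (t : ℝ≥0) {u η : ℝ} (hu1 : u ≤ 1)
    (hη : 0 < η) (hηu : η < u) :
    haarO3 {h | ∃ s ≤ t, u ≤ ⟪x s, act h (y s)⟫} ≤ ENNReal.ofReal (bnd u η (κ * t) 0) := by
  have hlim : Tendsto (fun n : ℕ => κ * t / n) atTop (𝓝 0) :=
    tendsto_const_div_atTop_nhds_zero_nat (κ * t)
  have hcont : ContinuousAt (fun δ => bnd u η (κ * t) δ) 0 := by
    unfold bnd
    have : η - 2 * 0 ≠ 0 := by simpa using hη.ne'
    fun_prop (disch := assumption)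
  have h1 : Tendsto (fun n : ℕ => ENNReal.ofReal (bnd u η (κ * t) (κ * t / n))) atTop
      (𝓝 (ENNReal.ofReal (bnd u η (κ * t) 0))) :=
    ENNReal.tendsto_ofReal (hcont.tendsto.comp hlim)
  refine ge_of_tendsto h1 ?_
  have e1 : ∀ᶠ n : ℕ in atTop, κ * t / n < η / 2 := hlim.eventually_lt_const (by linarith)
  have e2 : ∀ᶠ n : ℕ in atTop, κ * t / n < (u - η) / 2 := hlim.eventually_lt_const (by linarith)
  filter_upwards [e1, e2, eventually_gt_atTop 0] with n h1 h2 h3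
  exact hit_grid hx hy hκ hLx hLy t hu1 h3 (by linarith) (by linarith)

/-- The hitting bound. -/
theorem hit_prob {x y : ℝ≥0 → E3} (hx : ∀ s, ‖x s‖ = 1) (hy : ∀ s, ‖y s‖ = 1) {κ : ℝ}
    (hκ : 0 ≤ κ) (hLx : ∀ s t, ‖x s - x t‖ ≤ κ * dist s t)
    (hLy : ∀ s t, ‖y s - y t‖ ≤ κ * dist s t) (t : ℝ≥0) {u : ℝ} (hu0 : 0 < u) (hu1 : u ≤ 1) :
    haarO3 {h | ∃ s ≤ t, u ≤ ⟪x s, act h (y s)⟫} ≤
      ENNReal.ofReal ((1 - u) / 2 + 2 / π ^ 2 * √(1 - u ^ 2) * (κ * t)) := by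
  have hcont : Continuous (fun η : ℝ => (1 - (u - η)) / 2 +
      κ * t * (2 / π ^ 2 * √(1 - (u - η) ^ 2))) := by fun_prop
  have h1 : Tendsto (fun η : ℝ => ENNReal.ofReal ((1 - (u - η)) / 2 +
      κ * t * (2 / π ^ 2 * √(1 - (u - η) ^ 2)))) (𝓝[>] 0)
      (𝓝 (ENNReal.ofReal ((1 - u) / 2 + 2 / π ^ 2 * √(1 - u ^ 2) * (κ * t)))) := by
    have := (ENNReal.continuous_ofReal.comp hcont).tendsto 0
    have h2 := this.mono_left (nhdsWithin_le_nhds (s := Ioi (0 : ℝ)))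
    simp only [Function.comp_def, sub_zero] at h2
    convert h2 using 2
    congr 1
    ring
  refine ge_of_tendsto h1 ?_
  have e1 : ∀ᶠ η : ℝ in 𝓝[>] 0, η ∈ Ioo 0 u := Ioo_mem_nhdsGT hu0
  filter_upwards [e1] with η hη
  have := hit_eta hx hy hκ hLx hLy t hu1 hη.1 hη.2
  refine this.trans (le_of_eq ?_)
  unfold bnd
  congr 1
  have : η ≠ 0 := hη.1.ne'
  simp only [mul_zero, sub_zero, add_zero]
  rw [div_self this]
  ring

end Astro
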