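import Pool.Agent.Lib.H33Astro.Sector

/-!
# The law of the cosine of the distance of two independent uniform points
-/

set_option autoImplicit false

noncomputable section

open MeasureTheory Metric Set
open scoped RealInnerProductSpace NNReal ENNReal

namespace Astro

/-- The action as a linear isometry equivalence. -/
def actE (g : O3) : E3 ≃ₗᵢ[ℝ] E3 where
  toFun := act g
  map_add' := act_add g
  map_smul' := act_smul g
  invFun := act g⁻¹
  left_inv x := by rw [← act_mul, inv_mul_cancel, act_one]
  right_inv x := by rw [← act_mul, mul_inv_cancel, act_one]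
  norm_map' := norm_act g

theorem actE_apply (g : O3) (x : E3) : actE g x = act g x := rfl

theorem exists_act_eq {y z : E3} (hy : ‖y‖ = 1) (hz : ‖z‖ = 1) : ∃ g : O3, act g y = z := by
  obtain ⟨g, hg⟩ := exists_act ((ℝ ∙ (y - z))ᗮ.reflection)
  refine ⟨g, ?_⟩
  rw [hg]
  exact Submodule.reflection_sub (by rw [hy, hz])

theorem continuous_act_left (x : E3) : Continuous (fun g : O3 => act g x) :=
  continuous_act.comp (by fun_prop : Continuous (fun g : O3 => (g, x)))

theorem continuous_act_right (g : O3) : Continuous (fun x : E3 => act g x) :=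
  continuous_act.comp (by fun_prop : Continuous (fun x : E3 => (g, x)))

instance : SecondCountableTopology O3 := by
  have : SecondCountableTopology (Matrix (Fin 3) (Fin 3) ℝ) :=
    inferInstanceAs (SecondCountableTopology (Fin 3 → Fin 3 → ℝ))
  exact TopologicalSpace.Subtype.secondCountableTopology _

theorem haar_cap {x y : E3} (hx : ‖x‖ = 1) (hy : ‖y‖ = 1) {k : ℝ} (hk0 : 0 ≤ k) (hk1 : k ≤ 1) :
    haarO3 {h | k ≤ ⟪x, act h y⟫} = ENNReal.ofReal ((1 - k) / 2) := by
  set p := haarO3 {h | k ≤ ⟪x, act h y⟫} with hp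
  let D : Set (O3 × E3) := {q | ‖q.2‖ ≤ 1 ∧ ‖q.2‖ * k ≤ ⟪act q.1 q.2, x⟫}
  have hDc : IsClosed D := by
    have h1 : IsClosed {q : O3 × E3 | ‖q.2‖ ≤ 1} := isClosed_le (by fun_prop) (by fun_prop)
    have h2 : IsClosed {q : O3 × E3 | ‖q.2‖ * k ≤ ⟪act q.1 q.2, x⟫} :=
      isClosed_le (by fun_prop) (continuous_act.inner continuous_const)
    exact h1.inter h2
  have hD : MeasurableSet D := hDc.measurableSet
  -- first computation
  have e1 : (haarO3.prod (volume : Measure E3)) D = ENNReal.ofReal (2 * Real.pi / 3 * (1 - k)) := by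
    rw [Measure.prod_apply hD]
    have : ∀ h : O3, volume (Prod.mk h ⁻¹' D) = ENNReal.ofReal (2 * Real.pi / 3 * (1 - k)) := by
      intro h
      have : Prod.mk h ⁻¹' D = (actE h) ⁻¹' {z : E3 | ‖z‖ ≤ 1 ∧ ‖z‖ * k ≤ ⟪z, x⟫} := by
        ext z
        simp only [D, mem_preimage, mem_ofPred_eq, actE_apply, norm_act]
      have hcl : IsClosed {z : E3 | ‖z‖ ≤ 1 ∧ ‖z‖ * k ≤ ⟪z, x⟫} := by
        have h1 : IsClosed {z : E3 | ‖z‖ ≤ 1} := isClosed_le (by fun_prop) (by fun_prop)
        have h2 : IsClosed {z : E3 | ‖z‖ * k ≤ ⟪z, x⟫} := isClosed_le (by fun_prop) (by fun_prop)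
        exact h1.inter h2
      rw [this, (actE h).measurePreserving.measure_preimage hcl.measurableSet.nullMeasurableSet,
        volume_sector hx hk0 hk1]
    simp_rw [this]
    simp
  -- second computation
  have e2 : (haarO3.prod (volume : Measure E3)) D = p * volume (closedBall (0 : E3) 1) := by
    rw [Measure.prod_apply_symm hD]
    have h0 : ∀ᵐ z : E3, z ≠ 0 := by
      simp [ae_iff, measure_singleton]
    have : ∫⁻ z : E3, haarO3 ((fun h => (h, z)) ⁻¹' D) =
        ∫⁻ z : E3, (closedBall (0 : E3) 1).indicator (fun _ => p) z := by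
      apply lintegral_congr_ae
      filter_upwards [h0] with z hz
      by_cases hzB : z ∈ closedBall (0 : E3) 1
      · rw [indicator_of_mem hzB]
        rw [mem_closedBall_zero_iff] at hzB
        have hzn : 0 < ‖z‖ := norm_pos_iff.mpr hz
        obtain ⟨g, hg⟩ := exists_act_eq (y := y) (z := ‖z‖⁻¹ • z) hy
          (by rw [norm_smul, norm_inv, norm_norm, inv_mul_cancel₀ hzn.ne'])
        have hg' : z = ‖z‖ • act g y := by
          rw [hg, smul_smul, mul_inv_cancel₀ hzn.ne', one_smul]
        have hset : (fun h => (h, z)) ⁻¹' D = (fun h => h * g) ⁻¹' {h | k ≤ ⟪x, act h y⟫} := by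
          ext h
          simp only [D, mem_preimage, mem_ofPred_eq]
          have : act h z = ‖z‖ • act (h * g) y := by
            conv_lhs => rw [hg']
            rw [act_smul, act_mul]
          rw [this, inner_smul_left, real_inner_comm]
          simp only [conj_trivial]
          constructor
          · rintro ⟨_, h2⟩
            exact le_of_mul_le_mul_left h2 hzn
          · intro h2
            exact ⟨hzB, mul_le_mul_of_nonneg_left h2 hzn.le⟩
        rw [hset, measure_preimage_mul_right, hp]
      · rw [indicator_of_notMem hzB]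
        have : (fun h : O3 => (h, z)) ⁻¹' D = ∅ := by
          ext h
          simp only [D, mem_preimage, mem_ofPred_eq, mem_empty_iff_false, iff_false, not_and]
          intro h1
          exact absurd (mem_closedBall_zero_iff.mpr h1) hzB
        rw [this, measure_empty]
    rw [this, lintegral_indicator measurableSet_closedBall, setLIntegral_const]
  have hvol : volume (closedBall (0 : E3) 1) = ENNReal.ofReal (4 / 3 * Real.pi) := by
    rw [EuclideanSpace.volume_closedBall_fin_three]
    simp only [ENNReal.ofReal_one, one_pow, one_mul]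
    congr 1
    ring
  rw [e1, hvol] at e2
  have hpi := Real.pi_pos
  have e3 : ENNReal.ofReal ((1 - k) / 2) * ENNReal.ofReal (4 / 3 * Real.pi) =
      p * ENNReal.ofReal (4 / 3 * Real.pi) := by
    rw [← e2, ← ENNReal.ofReal_mul (by linarith)]
    congr 1
    ring
  have hne : ENNReal.ofReal (4 / 3 * Real.pi) ≠ 0 := by
    rw [Ne, ENNReal.ofReal_eq_zero, not_le]; positivity
  exact ((ENNReal.mul_left_inj hne ENNReal.ofReal_ne_top).mp e3).symm

end Astro
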