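import Pool.Agent.Lib.H33Astro.Meas

/-!
# The lower bound
-/

set_option autoImplicit false

noncomputable section

open MeasureTheory Metric Set Real Filter Topology
open scoped RealInnerProductSpace NNReal ENNReal

namespace Astro

/-- The chord is at most the angle. -/
theorem chord_le_angle {a b : E3} (ha : ‖a‖ = 1) (hb : ‖b‖ = 1) :
    ‖a - b‖ ≤ InnerProductGeometry.angle a b := by
  set θ := InnerProductGeometry.angle a b with hθ
  have h0 : 0 ≤ θ := InnerProductGeometry.angle_nonneg a b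
  have h1 : ‖a - b‖ ^ 2 ≤ θ ^ 2 := by
    have h2 : cos θ = ⟪a, b⟫ := by rw [hθ, InnerProductGeometry.cos_angle, ha, hb]; simp
    have h3 := one_sub_sq_div_two_le_cos (x := θ)
    rw [norm_sub_sq_real, ha, hb, ← h2]
    linarith
  exact (pow_le_pow_iff_left₀ (norm_nonneg _) h0 two_ne_zero).mp h1

theorem unit_path {ρ : ℝ} {N : E3} (hρ : 0 < ρ) (g : O3) (γ : Paths ρ N) (s : ℝ≥0) :
    ‖ρ⁻¹ • act g (γ.1 s)‖ = 1 := by
  rw [norm_smul, norm_act, γ.2.2.1 s, norm_inv, Real.norm_of_nonneg hρ.le, inv_mul_cancel₀ hρ.ne']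

theorem lip_path {ρ : ℝ} {N : E3} (hρ : 0 < ρ) (g : O3) (γ : Paths ρ N) (s t : ℝ≥0) :
    ‖ρ⁻¹ • act g (γ.1 s) - ρ⁻¹ • act g (γ.1 t)‖ ≤ ρ⁻¹ * dist s t := by
  refine (chord_le_angle (unit_path hρ g γ s) (unit_path hρ g γ t)).trans ?_
  rw [InnerProductGeometry.angle_smul_left_of_pos _ _ (inv_pos.mpr hρ),
    InnerProductGeometry.angle_smul_right_of_pos _ _ (inv_pos.mpr hρ), angle_act]
  have := γ.2.2.2 s t
  unfold gdist at this
  rw [inv_mul_eq_div, le_div_iff₀ hρ, mul_comm]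
  exact this

theorem haar_meetTime_lt {ρ r : ℝ} {N : E3} (hρ : 0 < ρ) (hr0 : 0 < r) (hr : r < π / 2 * ρ)
    (g₁ : O3) (γ₁ γ₂ : Paths ρ N) (t : ℝ≥0) :
    haarO3 {g₂ | meetTime r g₁ g₂ γ₁ γ₂ < t} ≤
      ENNReal.ofReal ((1 - cos (r / ρ)) / 2 + 2 / π ^ 2 * sin (r / ρ) * (ρ⁻¹ * t)) := by
  have hrρ0 : 0 < r / ρ := by positivity
  have hrρ : r / ρ < π / 2 := by rw [div_lt_iff₀ hρ]; exact hr
  have hu0 : 0 < cos (r / ρ) := cos_pos_of_mem_Ioo ⟨by linarith [pi_pos], hrρ⟩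
  have hs0 : 0 ≤ sin (r / ρ) := sin_nonneg_of_nonneg_of_le_pi hrρ0.le (by linarith [pi_pos])
  have hy1 : ∀ s, ‖ρ⁻¹ • γ₂.1 s‖ = 1 := fun s => by
    simpa using unit_path hρ 1 γ₂ s
  have hy2 : ∀ s t, ‖ρ⁻¹ • γ₂.1 s - ρ⁻¹ • γ₂.1 t‖ ≤ ρ⁻¹ * dist s t := fun s t => by
    simpa using lip_path hρ 1 γ₂ s t
  have hmain := hit_prob (x := fun s => ρ⁻¹ • act g₁ (γ₁.1 s)) (y := fun s => ρ⁻¹ • γ₂.1 s)
    (unit_path hρ g₁ γ₁) hy1 (inv_nonneg.mpr hρ.le) (lip_path hρ g₁ γ₁) hy2 t hu0 (cos_le_one _)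
  have hsqrt : √(1 - cos (r / ρ) ^ 2) = sin (r / ρ) := by
    rw [← sin_sq]
    exact sqrt_sq hs0
  rw [hsqrt] at hmain
  refine (measure_mono ?_).trans hmain
  intro g₂ hg
  obtain ⟨s, hs, h⟩ := (meetTime_lt_iff _ _ _ _ _).mp hg
  refine ⟨s, by exact_mod_cast hs.le, ?_⟩
  rw [gdist_le_iff hρ hr0.le (by nlinarith [pi_pos]) (by rw [norm_act]; exact γ₁.2.2.1 s)
    (by rw [norm_act]; exact γ₂.2.2.1 s)] at h
  rw [act_smul, inner_smul_left, inner_smul_right]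
  simp only [conj_trivial]
  have h2 : cos (r / ρ) = ρ⁻¹ * (ρ⁻¹ * (ρ ^ 2 * cos (r / ρ))) := by field_simp
  rw [h2]
  have : 0 < ρ⁻¹ := inv_pos.mpr hρ
  gcongr

/-- `∫ 1{t ≤ a} dt ≤ a`. -/
theorem lintegral_indicator_le (a : ℝ≥0∞) (S : ℝ) :
    ∫⁻ t in Ioc 0 S, {t : ℝ | ENNReal.ofReal t ≤ a}.indicator (fun _ => (1 : ℝ≥0∞)) t ≤ a := by
  rcases eq_or_ne a ⊤ with ha | ha
  · rw [ha]; exact le_top
  have hset : {t : ℝ | ENNReal.ofReal t ≤ a} = Iic a.toReal := by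
    ext t
    simp only [mem_ofPred_eq, mem_Iic]
    exact ENNReal.ofReal_le_iff_le_toReal ha
  rw [hset, lintegral_indicator measurableSet_Iic, setLIntegral_one, Measure.restrict_apply
    measurableSet_Iic]
  have hsub : Iic a.toReal ∩ Ioc 0 S ⊆ Ioc 0 a.toReal := by
    rintro t ⟨h1, h2⟩
    exact ⟨h2.1, h1⟩
  refine (measure_mono hsub).trans ?_
  rw [Real.volume_Ioc, sub_zero, ENNReal.ofReal_toReal ha]

theorem lintegral_lower (μ : Measure O3) [IsProbabilityMeasure μ] {T : O3 → ℝ≥0∞}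
    (hT : Measurable T) {A B : ℝ} (hA0 : 0 ≤ A) (hA : A ≤ 1) (hB : 0 < B)
    (h : ∀ t : ℝ≥0, μ {g | T g < t} ≤ ENNReal.ofReal (A + B * t)) :
    ENNReal.ofReal ((1 - A) ^ 2 / (2 * B)) ≤ ∫⁻ g, T g ∂μ := by
  set S : ℝ := (1 - A) / B with hS
  have hS0 : 0 ≤ S := div_nonneg (by linarith) hB.le
  have h1 : ∫⁻ g, (∫⁻ t in Ioc 0 S, {t : ℝ | ENNReal.ofReal t ≤ T g}.indicator
      (fun _ => (1 : ℝ≥0∞)) t) ∂μ ≤ ∫⁻ g, T g ∂μ :=
    lintegral_mono (fun g => lintegral_indicator_le (T g) S)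
  refine le_trans ?_ h1
  have hK : Measurable (fun q : O3 × ℝ => {t : ℝ | ENNReal.ofReal t ≤ T q.1}.indicator
      (fun _ => (1 : ℝ≥0∞)) q.2) := by
    have e : (fun q : O3 × ℝ => {t : ℝ | ENNReal.ofReal t ≤ T q.1}.indicator
      (fun _ => (1 : ℝ≥0∞)) q.2) = {q : O3 × ℝ | ENNReal.ofReal q.2 ≤ T q.1}.indicator
      (fun _ => (1 : ℝ≥0∞)) := by
      ext q
      by_cases hq : ENNReal.ofReal q.2 ≤ T q.1
      · rw [indicator_of_mem (show q.2 ∈ {t : ℝ | ENNReal.ofReal t ≤ T q.1} from hq),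
          indicator_of_mem (show q ∈ {q : O3 × ℝ | ENNReal.ofReal q.2 ≤ T q.1} from hq)]
      · rw [indicator_of_notMem (show q.2 ∉ {t : ℝ | ENNReal.ofReal t ≤ T q.1} from hq),
          indicator_of_notMem (show q ∉ {q : O3 × ℝ | ENNReal.ofReal q.2 ≤ T q.1} from hq)]
    rw [e]
    apply Measurable.indicator measurable_const
    exact measurableSet_le (measurable_snd.ennreal_ofReal) (hT.comp measurable_fst)
  rw [lintegral_lintegral_swap hK.aemeasurable]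
  have h2 : ∀ t : ℝ, t ∈ Ioc 0 S → ENNReal.ofReal (1 - A - B * t) ≤
      ∫⁻ g, {t : ℝ | ENNReal.ofReal t ≤ T g}.indicator (fun _ => (1 : ℝ≥0∞)) t ∂μ := by
    intro t ht
    have ht' := h t.toNNReal
    have e1 : ((t.toNNReal : ℝ≥0∞)) = ENNReal.ofReal t := rfl
    rw [e1, Real.coe_toNNReal _ ht.1.le] at ht'
    have e2 : ∫⁻ g, {t : ℝ | ENNReal.ofReal t ≤ T g}.indicator (fun _ => (1 : ℝ≥0∞)) t ∂μ =
        μ {g | ENNReal.ofReal t ≤ T g} := by
      have : ∀ g, {t : ℝ | ENNReal.ofReal t ≤ T g}.indicator (fun _ => (1 : ℝ≥0∞)) t =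
          {g | ENNReal.ofReal t ≤ T g}.indicator (fun _ => (1 : ℝ≥0∞)) g := by
        intro g
        by_cases hq : ENNReal.ofReal t ≤ T g
        · rw [indicator_of_mem (show t ∈ {t : ℝ | ENNReal.ofReal t ≤ T g} from hq),
            indicator_of_mem (show g ∈ {g | ENNReal.ofReal t ≤ T g} from hq)]
        · rw [indicator_of_notMem (show t ∉ {t : ℝ | ENNReal.ofReal t ≤ T g} from hq),
            indicator_of_notMem (show g ∉ {g | ENNReal.ofReal t ≤ T g} from hq)]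
      simp_rw [this]
      rw [lintegral_indicator (measurableSet_le measurable_const hT)]
      simp
    rw [e2]
    have e3 : {g | ENNReal.ofReal t ≤ T g} = {g | T g < ENNReal.ofReal t}ᶜ := by
      ext g; simp
    rw [e3, prob_compl_eq_one_sub (measurableSet_lt hT measurable_const)]
    calc ENNReal.ofReal (1 - A - B * t) = 1 - ENNReal.ofReal (A + B * t) := by
          rw [← ENNReal.ofReal_one, ← ENNReal.ofReal_sub _ (by have := ht.1; positivity)]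
          congr 1
          ring
      _ ≤ _ := tsub_le_tsub_left ht' _
  have h3 : ∫⁻ t in Ioc 0 S, ENNReal.ofReal (1 - A - B * t) ≤
      ∫⁻ t in Ioc 0 S, ∫⁻ g, {t : ℝ | ENNReal.ofReal t ≤ T g}.indicator
        (fun _ => (1 : ℝ≥0∞)) t ∂μ :=
    setLIntegral_mono' measurableSet_Ioc h2
  refine le_trans ?_ h3
  rw [← ofReal_integral_eq_lintegral_ofReal]
  · apply ENNReal.ofReal_le_ofReal
    rw [← intervalIntegral.integral_of_le hS0]
    have : ∫ t in (0)..S, (1 - A - B * t) = (1 - A) * S - B * (S ^ 2 / 2) := by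
      rw [intervalIntegral.integral_sub (by simp) (Continuous.intervalIntegrable (by fun_prop) _ _),
        intervalIntegral.integral_const_mul, integral_id]
      simp
      ring
    rw [this, hS]
    apply le_of_eq
    field_simp
    ring
  · apply Continuous.integrableOn_Ioc
    fun_prop
  · filter_upwards [self_mem_ae_restrict measurableSet_Ioc] with t ht
    have h4 : B * t ≤ B * S := mul_le_mul_of_nonneg_left ht.2 hB.le
    have h5 : B * S = 1 - A := by rw [hS]; field_simp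
    show 0 ≤ 1 - A - B * t
    linarith

attribute [local irreducible] meetTime

/-- The lower bound for every strategy. -/
theorem expMeet_lower {ρ r : ℝ} {N : E3} (hρ : 0 < ρ) (hr0 : 0 < r) (hr : r < π / 2 * ρ)
    (μ : Measure (Paths ρ N)) [IsProbabilityMeasure μ] :
    ENNReal.ofReal (π ^ 2 * ρ * cos (r / (2 * ρ)) ^ 4 / (4 * sin (r / ρ))) ≤ expMeet r μ := by
  have hrρ0 : 0 < r / ρ := by positivity
  have hrρ : r / ρ < π / 2 := by rw [div_lt_iff₀ hρ]; exact hr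
  have hpi := pi_pos
  have hs0 : 0 < sin (r / ρ) := sin_pos_of_pos_of_lt_pi hrρ0 (by linarith)
  have hmeas := measurable_meetTime (ρ := ρ) (r := r) N hρ hr0.le (by nlinarith)
  set C : ℝ≥0∞ := ENNReal.ofReal (π ^ 2 * ρ * cos (r / (2 * ρ)) ^ 4 / (4 * sin (r / ρ))) with hC
  have hfix : ∀ (g₁ : O3) (γ₁ γ₂ : Paths ρ N), C ≤ ∫⁻ g₂, meetTime r g₁ g₂ γ₁ γ₂ ∂haarO3 := by
    intro g₁ γ₁ γ₂
    have hφ : Measurable (fun g₂ : O3 => (((g₁, g₂), (γ₁, γ₂)) : Om ρ N)) :=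
      (measurable_const.prodMk measurable_id).prodMk measurable_const
    have hTm : Measurable (fun g₂ => meetTime r g₁ g₂ γ₁ γ₂) := hmeas.comp hφ
    have hlow := lintegral_lower haarO3 hTm (A := (1 - cos (r / ρ)) / 2)
      (B := 2 / π ^ 2 * sin (r / ρ) * ρ⁻¹) (by linarith [cos_le_one (r / ρ)])
      (by linarith [neg_one_le_cos (r / ρ)]) (by positivity) (fun t => by
        refine (haar_meetTime_lt hρ hr0 hr g₁ γ₁ γ₂ t).trans (le_of_eq ?_)
        congr 1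
        ring)
    refine le_trans (le_of_eq ?_) hlow
    rw [hC]
    congr 1
    have hcos : 1 - (1 - cos (r / ρ)) / 2 = cos (r / (2 * ρ)) ^ 2 := by
      have : r / ρ = 2 * (r / (2 * ρ)) := by field_simp
      rw [this, cos_two_mul]; ring
    rw [hcos]
    field_simp
    ring
  unfold expMeet
  rw [lintegral_prod_symm _ hmeas.aemeasurable]
  have hinner : ∀ γ : Paths ρ N × Paths ρ N, C ≤ ∫⁻ g : O3 × O3,
      meetTime r g.1 g.2 γ.1 γ.2 ∂(haarO3.prod haarO3) := by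
    intro γ
    have hφ : Measurable (fun g : O3 × O3 => ((g, γ) : Om ρ N)) :=
      measurable_id.prodMk measurable_const
    have hm2 : Measurable (fun g : O3 × O3 => meetTime r g.1 g.2 γ.1 γ.2) := hmeas.comp hφ
    rw [lintegral_prod _ hm2.aemeasurable]
    calc C = ∫⁻ _ : O3, C ∂haarO3 := by simp
      _ ≤ _ := lintegral_mono (fun g₁ => hfix g₁ γ.1 γ.2)
  calc C = ∫⁻ _ : Paths ρ N × Paths ρ N, C ∂(μ.prod μ) := by simp
    _ ≤ _ := lintegral_mono hinner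

theorem value_lower {ρ r : ℝ} {N : E3} (hρ : 0 < ρ) (hr0 : 0 < r) (hr : r < π / 2 * ρ) :
    ENNReal.ofReal (π ^ 2 * ρ * cos (r / (2 * ρ)) ^ 4 / (4 * sin (r / ρ))) ≤ value ρ r N :=
  le_iInf (fun μ => expMeet_lower hρ hr0 hr (μ : Measure (Paths ρ N)))

end Astro
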