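import Pool.Agent.Lib.H33Astro.Upper

/-!
# The asymptotic bounds for the astronaut problem
-/

set_option autoImplicit false

noncomputable section

open MeasureTheory Metric Set Real Filter Topology
open scoped RealInnerProductSpace NNReal ENNReal

namespace Astro

theorem tsum_geom (n : ℕ) (hn : 2 ≤ n) :
    ∑' j : ℕ, ((n : ℝ≥0∞)⁻¹) ^ (j + 1) = ENNReal.ofReal (1 / (n - 1)) := by
  have hn' : (2 : ℝ) ≤ n := by exact_mod_cast hn
  have h1 : (n : ℝ≥0∞)⁻¹ = ENNReal.ofReal (1 / n) := by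
    rw [one_div, ENNReal.ofReal_inv_of_pos (by linarith), ENNReal.ofReal_natCast]
  have h2 : (0 : ℝ) ≤ 1 / n := by positivity
  have h3 : (1 : ℝ) / n < 1 := by rw [div_lt_one (by linarith)]; linarith
  have h4 : ∑' j : ℕ, ((n : ℝ≥0∞)⁻¹) ^ (j + 1) = ∑' j : ℕ, ENNReal.ofReal ((1 / n : ℝ) ^ (j + 1)) := by
    congr 1
    ext j
    rw [h1, ENNReal.ofReal_pow h2]
  have hs : Summable (fun j : ℕ => (1 / n : ℝ) ^ (j + 1)) :=
    (summable_nat_add_iff 1).mpr (summable_geometric_of_lt_one h2 h3)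
  rw [h4, ← ENNReal.ofReal_tsum_of_nonneg (fun j => by positivity) hs]
  congr 1
  simp_rw [pow_succ']
  rw [tsum_mul_left, tsum_geometric_of_lt_one h2 h3]
  have h5 : (n : ℝ) - 1 ≠ 0 := by linarith
  have h6 : (n : ℝ) ≠ 0 := by linarith
  field_simp

theorem value_upper {ρ r : ℝ} {N : E3} (hρ : 0 < ρ) (hN : ‖N‖ = ρ) (hr0 : 0 ≤ r) (hr : r ≤ π * ρ)
    {n K : ℕ} (hn : 2 ≤ n) (hKpos : 0 < K)
    (hK : ∀ m : ℕ, 1 ≤ m → m ≤ 2 * n → Nat.Coprime m K) (hKr : π * ρ ≤ r * K) :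
    value ρ r N ≤ ENNReal.ofReal (π * ρ * (K * (1 / (n - 1)) + (K + 1) / 2)) := by
  have hpi := pi_pos
  have hn' : (2 : ℝ) ≤ n := by exact_mod_cast hn
  have : NeZero n := ⟨by omega⟩
  have : NeZero K := ⟨by omega⟩
  obtain ⟨A, hA⟩ := exists_act_eq (y := e3) (z := ρ⁻¹ • N) norm_e3
    (by rw [norm_smul, norm_inv, Real.norm_of_nonneg hρ.le, hN, inv_mul_cancel₀ hρ.ne'])
  have h1 := expMeet_strat_le hρ hr0 hr A hA (n := n) (K := K) hK hKr
  have h2 : value ρ r N ≤ expMeet r (strat hρ A hA n K) :=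
    iInf_le (fun μ : ProbabilityMeasure (Paths ρ N) => expMeet r (μ : Measure (Paths ρ N)))
      ⟨strat hρ A hA n K, inferInstance⟩
  refine h2.trans (h1.trans (le_of_eq ?_))
  have h3 : (0 : ℝ) < n - 1 := by linarith
  rw [tsum_geom n hn, ← ENNReal.ofReal_mul (by positivity), ← ENNReal.ofReal_add (by positivity)
    (by positivity)]
  congr 1
  ring

theorem exists_K (n : ℕ) {x : ℝ} (hx : 0 ≤ x) : ∃ K : ℕ, 0 < K ∧ x ≤ K ∧
    (K : ℝ) ≤ x + ((2 * n).factorial + 1) ∧ ∀ m : ℕ, 1 ≤ m → m ≤ 2 * n → Nat.Coprime m K := by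
  set F := (2 * n).factorial with hF
  have hFpos : 0 < F := Nat.factorial_pos _
  have hF' : (0 : ℝ) < F := by exact_mod_cast hFpos
  refine ⟨F * ⌈x / F⌉₊ + 1, Nat.succ_pos _, ?_, ?_, ?_⟩
  · have h1 := Nat.le_ceil (x / F)
    rw [div_le_iff₀ hF'] at h1
    push_cast
    linarith
  · have h1 := Nat.ceil_lt_add_one (show 0 ≤ x / F by positivity)
    have h2 : (F : ℝ) * ⌈x / F⌉₊ < F * (x / F + 1) := mul_lt_mul_of_pos_left h1 hF'
    have h3 : (F : ℝ) * (x / F + 1) = x + F := by field_simp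
    push_cast
    linarith
  · intro m hm1 hm2
    have hdvd : m ∣ F := Nat.dvd_factorial hm1 hm2
    obtain ⟨d, hd⟩ := hdvd
    rw [hd, mul_assoc]
    simp

/-- The asymptotic upper bound. -/
theorem upper_asymp {ε : ℝ} (hε : 0 < ε) : ∃ δ : ℝ, 0 < δ ∧ ∀ (ρ r : ℝ) (N : E3), 0 < ρ →
    ‖N‖ = ρ → 0 < r → r < δ * ρ →
      value ρ r N ≤ ENNReal.ofReal ((π ^ 2 / 2 + ε) * ρ ^ 2 / r) := by
  have hpi := pi_pos
  -- choose `n`
  obtain ⟨n₀, hn₀⟩ := exists_nat_gt (2 * π ^ 2 / ε)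
  set n : ℕ := n₀ + 2 with hn
  have hn2 : 2 ≤ n := by omega
  have hn1 : (0 : ℝ) < n - 1 := by
    have h0 : (0 : ℝ) ≤ n₀ := Nat.cast_nonneg _
    rw [hn]; push_cast; linarith
  have hsmall : π ^ 2 * (1 / (n - 1)) ≤ ε / 2 := by
    have h1 : 2 * π ^ 2 / ε ≤ n - 1 := by
      rw [hn]; push_cast; linarith
    rw [div_le_iff₀ hε] at h1
    rw [mul_one_div, div_le_iff₀ hn1]
    linarith
  set C : ℝ := π * (((2 * n).factorial + 1) * (1 / (n - 1) + 1 / 2) + 1 / 2) with hC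
  have hCpos : 0 < C := by positivity
  refine ⟨min 1 (ε / (2 * C)), by positivity, ?_⟩
  intro ρ r N hρ hN hr0 hr
  have hr1 : r < ρ := by
    calc r < min 1 (ε / (2 * C)) * ρ := hr
      _ ≤ 1 * ρ := mul_le_mul_of_nonneg_right (min_le_left _ _) hρ.le
      _ = ρ := one_mul _
  have hr2 : r < ε / (2 * C) * ρ :=
    hr.trans_le (mul_le_mul_of_nonneg_right (min_le_right _ _) hρ.le)
  obtain ⟨K, hKpos, hK1, hK2, hK3⟩ := exists_K n (show 0 ≤ π * ρ / r by positivity)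
  have hKr : π * ρ ≤ r * K := by
    rw [div_le_iff₀ hr0] at hK1
    linarith
  have hrpi : r ≤ π * ρ := by nlinarith [pi_gt_three]
  refine (value_upper hρ hN hr0.le hrpi hn2 hKpos hK3 hKr).trans (ENNReal.ofReal_le_ofReal ?_)
  rw [le_div_iff₀ hr0]
  have h1 : (K : ℝ) * (1 / (n - 1)) + (K + 1) / 2 = K * (1 / (n - 1) + 1 / 2) + 1 / 2 := by ring
  have h2 : 0 ≤ 1 / ((n : ℝ) - 1) + 1 / 2 := by positivity
  have h3 : (K : ℝ) * (1 / (n - 1)) + (K + 1) / 2 ≤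
      (π * ρ / r + ((2 * n).factorial + 1)) * (1 / (n - 1) + 1 / 2) + 1 / 2 := by
    rw [h1]
    have := mul_le_mul_of_nonneg_right hK2 h2
    linarith
  calc π * ρ * (K * (1 / (n - 1)) + (K + 1) / 2) * r
      ≤ π * ρ * ((π * ρ / r + ((2 * n).factorial + 1)) * (1 / (n - 1) + 1 / 2) + 1 / 2) * r := by
        gcongr
    _ = ρ ^ 2 * (π ^ 2 / 2 + π ^ 2 * (1 / (n - 1))) + ρ * r * C := by
        rw [hC]; field_simp; ring
    _ ≤ ρ ^ 2 * (π ^ 2 / 2 + ε / 2) + ρ * (ε / (2 * C) * ρ) * C := by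
        gcongr
    _ = (π ^ 2 / 2 + ε) * ρ ^ 2 := by field_simp; ring

/-- The asymptotic lower bound. -/
theorem lower_asymp {ε : ℝ} (hε : 0 < ε) : ∃ δ : ℝ, 0 < δ ∧ ∀ (ρ r : ℝ) (N : E3), 0 < ρ →
    0 < r → r < δ * ρ →
      ENNReal.ofReal ((π ^ 2 / 4 - ε) * ρ ^ 2 / r) ≤ value ρ r N := by
  have hpi := pi_pos
  have hpi3 := pi_gt_three
  refine ⟨min 1 (ε / π ^ 2), by positivity, ?_⟩
  intro ρ r N hρ hr0 hr
  set x : ℝ := r / ρ with hx
  have hx0 : 0 < x := by positivity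
  have hx1 : x < 1 := by
    rw [hx, div_lt_one hρ]
    calc r < min 1 (ε / π ^ 2) * ρ := hr
      _ ≤ 1 * ρ := mul_le_mul_of_nonneg_right (min_le_left _ _) hρ.le
      _ = ρ := one_mul _
  have hx2 : x < ε / π ^ 2 := by
    rw [hx, div_lt_iff₀ hρ]
    exact hr.trans_le (mul_le_mul_of_nonneg_right (min_le_right _ _) hρ.le)
  have hlow := value_lower (N := N) hρ hr0 (show r < π / 2 * ρ by
    have : r < ρ := by rw [hx, div_lt_one hρ] at hx1; exact hx1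
    nlinarith)
  refine le_trans (ENNReal.ofReal_le_ofReal ?_) hlow
  have e1 : r / (2 * ρ) = x / 2 := by rw [hx]; field_simp
  have e2 : (π ^ 2 / 4 - ε) * ρ ^ 2 / r = (π ^ 2 / 4 - ε) * ρ / x := by
    rw [hx]; field_simp
  have hs0 : 0 < sin x := sin_pos_of_pos_of_lt_pi hx0 (by linarith)
  have hs1 : sin x ≤ x := sin_le hx0.le
  have hc : 1 - (x / 2) ^ 2 / 2 ≤ cos (x / 2) := one_sub_sq_div_two_le_cos
  have hc0 : 0 ≤ 1 - (x / 2) ^ 2 / 2 := by nlinarith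
  have hc4 : 1 - x ≤ cos (x / 2) ^ 4 := by
    have h1 : (1 - (x / 2) ^ 2 / 2) ^ 4 ≤ cos (x / 2) ^ 4 := pow_le_pow_left₀ hc0 hc 4
    have h2 : 1 - x ^ 2 / 2 ≤ (1 - (x / 2) ^ 2 / 2) ^ 4 := by
      have := one_add_mul_le_pow (a := -((x / 2) ^ 2 / 2)) (by nlinarith) 4
      have e : (1 - (x / 2) ^ 2 / 2) = 1 + -((x / 2) ^ 2 / 2) := by ring
      rw [e]
      refine le_trans (le_of_eq ?_) this
      push_cast
      ring
    nlinarith
  rw [e1, e2, ← hx]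
  calc (π ^ 2 / 4 - ε) * ρ / x ≤ (π ^ 2 / 4 * (1 - x)) * ρ / x := by
        apply div_le_div_of_nonneg_right _ hx0.le
        apply mul_le_mul_of_nonneg_right _ hρ.le
        have h5 : π ^ 2 * x < ε := by
          rw [lt_div_iff₀ (by positivity)] at hx2
          linarith
        nlinarith
    _ ≤ (π ^ 2 / 4 * cos (x / 2) ^ 4) * ρ / x := by gcongr
    _ ≤ (π ^ 2 / 4 * cos (x / 2) ^ 4) * ρ / sin x := by
        apply div_le_div_of_nonneg_left (by positivity) hs0 hs1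
    _ = π ^ 2 * ρ * cos (x / 2) ^ 4 / (4 * sin x) := by
        field_simp

end Astro
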