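import Pool.Agent.Lib.H33Astro.Hit

/-!
# Measurability of the meeting time
-/

set_option autoImplicit false

noncomputable section

open MeasureTheory Metric Set Real Filter Topology
open scoped RealInnerProductSpace NNReal ENNReal

namespace Astro

theorem inner_le_sq {a b : E3} {ρ : ℝ} (hρ : 0 < ρ) (ha : ‖a‖ = ρ) (hb : ‖b‖ = ρ) :
    -1 ≤ ⟪a, b⟫ / ρ ^ 2 ∧ ⟪a, b⟫ / ρ ^ 2 ≤ 1 := by
  have h := abs_le.mp (abs_real_inner_le_norm a b)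
  rw [ha, hb] at h
  constructor
  · rw [le_div_iff₀ (by positivity)]; nlinarith [h.1]
  · rw [div_le_iff₀ (by positivity)]; nlinarith [h.2]

theorem cos_angle' {a b : E3} {ρ : ℝ} (ha : ‖a‖ = ρ) (hb : ‖b‖ = ρ) :
    cos (InnerProductGeometry.angle a b) = ⟪a, b⟫ / ρ ^ 2 := by
  rw [InnerProductGeometry.cos_angle, ha, hb]; ring_nf

theorem gdist_le_iff {a b : E3} {ρ r : ℝ} (hρ : 0 < ρ) (hr0 : 0 ≤ r) (hr : r ≤ π * ρ)
    (ha : ‖a‖ = ρ) (hb : ‖b‖ = ρ) :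
    gdist ρ a b ≤ r ↔ ρ ^ 2 * cos (r / ρ) ≤ ⟪a, b⟫ := by
  have h1 : r / ρ ≤ π := by rw [div_le_iff₀ hρ]; exact hr
  have h2 : 0 ≤ r / ρ := by positivity
  have h3 : gdist ρ a b ≤ r ↔ InnerProductGeometry.angle a b ≤ r / ρ := by
    unfold gdist
    rw [le_div_iff₀ hρ, mul_comm]
  rw [h3, ← Real.strictAntiOn_cos.le_iff_ge
    ⟨h2, h1⟩ ⟨InnerProductGeometry.angle_nonneg a b, InnerProductGeometry.angle_le_pi a b⟩,
    cos_angle' ha hb, le_div_iff₀ (by positivity)]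
  rw [mul_comm]

instance (ρ : ℝ) (N : E3) : SecondCountableTopology (Paths ρ N) :=
  TopologicalSpace.Subtype.secondCountableTopology _

theorem continuous_val (ρ : ℝ) (N : E3) : Continuous (fun γ : Paths ρ N => γ.1) :=
  continuous_subtype_val

theorem continuous_pos (ρ : ℝ) (N : E3) : Continuous (fun p : Paths ρ N × ℝ≥0 => p.1.1 p.2) := by
  have h1 : Continuous (fun p : Paths ρ N × ℝ≥0 => (p.1.1, p.2)) :=
    ((continuous_val ρ N).comp continuous_fst).prodMk continuous_snd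
  exact continuous_eval.comp h1

/-- Parameter space. -/
abbrev Om (ρ : ℝ) (N : E3) : Type := (O3 × O3) × (Paths ρ N × Paths ρ N)

/-- Inner product of the two positions. -/
def ipos {ρ : ℝ} {N : E3} (p : Om ρ N × ℝ≥0) : ℝ :=
  ⟪act p.1.1.1 (p.1.2.1.1 p.2), act p.1.1.2 (p.1.2.2.1 p.2)⟫

theorem continuous_ipos (ρ : ℝ) (N : E3) : Continuous (ipos (ρ := ρ) (N := N)) := by
  unfold ipos
  have h1 : Continuous (fun p : Om ρ N × ℝ≥0 => act p.1.1.1 (p.1.2.1.1 p.2)) := by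
    have : Continuous (fun p : Om ρ N × ℝ≥0 => p.1.2.1.1 p.2) :=
      (continuous_pos ρ N).comp (by fun_prop : Continuous fun p : Om ρ N × ℝ≥0 => (p.1.2.1, p.2))
    exact continuous_act.comp ((by fun_prop : Continuous fun p : Om ρ N × ℝ≥0 => p.1.1.1).prodMk this)
  have h2 : Continuous (fun p : Om ρ N × ℝ≥0 => act p.1.1.2 (p.1.2.2.1 p.2)) := by
    have : Continuous (fun p : Om ρ N × ℝ≥0 => p.1.2.2.1 p.2) :=
      (continuous_pos ρ N).comp (by fun_prop : Continuous fun p : Om ρ N × ℝ≥0 => (p.1.2.2, p.2))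
    exact continuous_act.comp ((by fun_prop : Continuous fun p : Om ρ N × ℝ≥0 => p.1.1.2).prodMk this)
  exact h1.inner h2

theorem isClosed_meet {ρ r : ℝ} (N : E3) (hρ : 0 < ρ) (hr0 : 0 ≤ r) (hr : r ≤ π * ρ) (b : ℝ≥0) :
    IsClosed {ω : Om ρ N | ∃ s ≤ b,
      gdist ρ (act ω.1.1 (ω.2.1.1 s)) (act ω.1.2 (ω.2.2.1 s)) ≤ r} := by
  let φ : Icc (0 : ℝ≥0) b × Om ρ N → Om ρ N × ℝ≥0 := fun p => (p.2, p.1.1)
  have hφ : Continuous φ := continuous_snd.prodMk (continuous_subtype_val.comp continuous_fst)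
  have hC : IsClosed {p : Icc (0 : ℝ≥0) b × Om ρ N | ρ ^ 2 * cos (r / ρ) ≤ ipos (φ p)} :=
    isClosed_le continuous_const ((continuous_ipos ρ N).comp hφ)
  have hproj := isClosedMap_snd_of_compactSpace _ hC
  convert hproj using 1
  ext ω
  constructor
  · rintro ⟨s, hs, h⟩
    refine ⟨(⟨s, zero_le, hs⟩, ω), ?_, rfl⟩
    rw [gdist_le_iff hρ hr0 hr (by rw [norm_act]; exact ω.2.1.2.2.1 s)
      (by rw [norm_act]; exact ω.2.2.2.2.1 s)] at h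
    exact h
  · rintro ⟨⟨s, ω'⟩, h, rfl⟩
    refine ⟨s.1, s.2.2, ?_⟩
    rw [gdist_le_iff hρ hr0 hr (by rw [norm_act]; exact ω'.2.1.2.2.1 s)
      (by rw [norm_act]; exact ω'.2.2.2.2.1 s)]
    exact h

theorem meetTime_lt_iff {ρ r : ℝ} {N : E3} (g₁ g₂ : O3) (γ₁ γ₂ : Paths ρ N) (a : ℝ≥0∞) :
    meetTime r g₁ g₂ γ₁ γ₂ < a ↔ ∃ s : ℝ≥0, (s : ℝ≥0∞) < a ∧
      gdist ρ (act g₁ (γ₁.1 s)) (act g₂ (γ₂.1 s)) ≤ r := by
  unfold meetTime
  simp only [iInf_lt_iff]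
  constructor
  · rintro ⟨s, h1, h2⟩; exact ⟨s, h2, h1⟩
  · rintro ⟨s, h1, h2⟩; exact ⟨s, h2, h1⟩

theorem measurable_meetTime {ρ r : ℝ} (N : E3) (hρ : 0 < ρ) (hr0 : 0 ≤ r) (hr : r ≤ π * ρ) :
    Measurable (fun ω : Om ρ N => meetTime r ω.1.1 ω.1.2 ω.2.1 ω.2.2) := by
  apply measurable_of_Iio
  intro a
  have : (fun ω : Om ρ N => meetTime r ω.1.1 ω.1.2 ω.2.1 ω.2.2) ⁻¹' (Iio a) =
      ⋃ q : {q : ℚ // 0 ≤ (q : ℝ) ∧ ENNReal.ofReal (q : ℝ) < a}, {ω : Om ρ N | ∃ s ≤ Real.toNNReal q.1,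
      gdist ρ (act ω.1.1 (ω.2.1.1 s)) (act ω.1.2 (ω.2.2.1 s)) ≤ r} := by
    ext ω
    simp only [mem_preimage, mem_Iio, meetTime_lt_iff, mem_iUnion, mem_ofPred_eq]
    constructor
    · rintro ⟨s, hs, h⟩
      obtain ⟨q, hq0, hq1, hq2⟩ := ENNReal.lt_iff_exists_rat_btwn.mp hs
      refine ⟨⟨q, by exact_mod_cast hq0, hq2⟩, s, ?_, h⟩
      have : (s : ℝ≥0∞) ≤ (Real.toNNReal q : ℝ≥0∞) := hq1.le
      exact_mod_cast this
    · rintro ⟨⟨q, hq0, hq⟩, s, hs, h⟩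
      refine ⟨s, lt_of_le_of_lt ?_ hq, h⟩
      have : (s : ℝ≥0∞) ≤ (Real.toNNReal q : ℝ≥0∞) := by exact_mod_cast hs
      exact this
  rw [this]
  exact MeasurableSet.iUnion (fun q => (isClosed_meet N hρ hr0 hr _).measurableSet)

end Astro
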