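import Pool.Agent.Lib.H33Astro.Path

/-!
# Two players on half great circles
-/

set_option autoImplicit false

noncomputable section

open MeasureTheory Metric Set Real Filter Topology
open scoped RealInnerProductSpace NNReal ENNReal

namespace Astro

theorem exists_cos_sin {a b : ℝ} (h : a ^ 2 + b ^ 2 = 1) : ∃ θ : ℝ, a = cos θ ∧ b = sin θ := by
  obtain ⟨φ, hφ⟩ := exists_polar a b
  have h1 : √(a ^ 2 + b ^ 2) = 1 := by rw [h, sqrt_one]
  refine ⟨φ, ?_, ?_⟩
  · have := hφ 0
    rw [h1] at this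
    simpa using this
  · have := hφ (π / 2)
    rw [h1] at this
    simp only [cos_pi_div_two, mul_zero, sin_pi_div_two, mul_one, zero_add, one_mul,
      cos_pi_div_two_sub] at this
    exact this

theorem sq_eq_one_cases {x : ℝ} (h : x ^ 2 = 1) : x = 1 ∨ x = -1 := by
  have : (x - 1) * (x + 1) = 0 := by ring_nf; linarith
  rcases mul_eq_zero.mp this with h | h
  · left; linarith
  · right; linarith

/-- A linear isometry fixing the pole acts on directions as a rotation or a reflection. -/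
theorem isometry_fix_pole (L : E3 ≃ₗᵢ[ℝ] E3) (hL : L e3 = e3) :
    ∃ θ ς : ℝ, (ς = 1 ∨ ς = -1) ∧ ∀ α : ℝ, L (uv α) = uv (θ + ς * α) := by
  set a := L (uv 0) with ha
  set b := L (uv (π / 2)) with hb
  have huv : ∀ α : ℝ, uv α = cos α • uv 0 + sin α • uv (π / 2) := by
    intro α
    ext i
    fin_cases i <;> simp [uv]
  have ha2 : a 2 = 0 := by
    rw [← inner_e3, ← hL, ha, LinearIsometryEquiv.inner_map_map, inner_e3]; simp
  have hb2 : b 2 = 0 := by
    rw [← inner_e3, ← hL, hb, LinearIsometryEquiv.inner_map_map, inner_e3]; simp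
  have han : a 0 ^ 2 + a 1 ^ 2 = 1 := by
    have h1 := normsq3 a
    rw [ha2, ha, LinearIsometryEquiv.norm_map, ← ha] at h1
    have h2 : ‖uv 0‖ ^ 2 = 1 := by rw [normsq3]; simp
    rw [h2] at h1
    linarith
  have hbn : b 0 ^ 2 + b 1 ^ 2 = 1 := by
    have h1 := normsq3 b
    rw [hb2, hb, LinearIsometryEquiv.norm_map, ← hb] at h1
    have h2 : ‖uv (π / 2)‖ ^ 2 = 1 := by rw [normsq3]; simp
    rw [h2] at h1
    linarith
  have hab : a 0 * b 0 + a 1 * b 1 = 0 := by
    have h1 : ⟪a, b⟫ = 0 := by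
      rw [ha, hb, LinearIsometryEquiv.inner_map_map, inner3]; simp
    rw [inner3, ha2, hb2] at h1
    linarith
  obtain ⟨θ, h0, h1⟩ := exists_cos_sin han
  -- `b = ς (-sin θ, cos θ)`
  set ς := -sin θ * b 0 + cos θ * b 1 with hς
  have hcs := sin_sq_add_cos_sq θ
  rw [h0, h1] at hab
  have hb0 : b 0 = ς * (-sin θ) := by
    rw [hς]
    linear_combination cos θ * hab - b 0 * hcs
  have hb1 : b 1 = ς * cos θ := by
    rw [hς]
    linear_combination sin θ * hab - b 1 * hcs
  have hς2 : ς ^ 2 = 1 := by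
    rw [hb0, hb1] at hbn
    linear_combination hbn - ς ^ 2 * hcs
  refine ⟨θ, ς, sq_eq_one_cases hς2, ?_⟩
  intro α
  rw [huv α, map_add, map_smul, map_smul, ← ha, ← hb]
  have hς' : ς = 1 ∨ ς = -1 := sq_eq_one_cases hς2
  ext i
  fin_cases i
  · show cos α * a 0 + sin α * b 0 = cos (θ + ς * α)
    rw [h0, hb0]
    rcases hς' with h | h <;> rw [h]
    · rw [one_mul, one_mul, cos_add]; ring
    · rw [neg_one_mul, neg_one_mul, ← sub_eq_add_neg, cos_sub]; ring
  · show cos α * a 1 + sin α * b 1 = sin (θ + ς * α)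
    rw [h1, hb1]
    rcases hς' with h | h <;> rw [h]
    · rw [one_mul, one_mul, sin_add]; ring
    · rw [neg_one_mul, neg_one_mul, ← sub_eq_add_neg, sin_sub]; ring
  · show cos α * a 2 + sin α * b 2 = 0
    rw [ha2, hb2]; ring

theorem norm_uv_sub (a b : ℝ) : ‖uv a - uv b‖ = 2 * |sin ((a - b) / 2)| := by
  have h : ‖uv a - uv b‖ ^ 2 = (2 * |sin ((a - b) / 2)|) ^ 2 := by
    rw [normsq3, mul_pow, sq_abs]
    simp
    have h1 : sin ((a - b) / 2) ^ 2 = (1 - cos (a - b)) / 2 := by
      have : a - b = 2 * ((a - b) / 2) := by ring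
      conv_rhs => rw [this, cos_two_mul]
      have := sin_sq_add_cos_sq ((a - b) / 2)
      linarith
    rw [h1, cos_sub]
    have e1 := sin_sq_add_cos_sq a
    have e2 := sin_sq_add_cos_sq b
    nlinarith
  exact (pow_left_inj₀ (norm_nonneg _) (by positivity) two_ne_zero).mp h

/-- The geometric core: for every relative position `h` there are an angle `θ` and a sign `ς` such
that during each half great circle the two players come close to each other when the directions
match. -/
theorem meet_core (h : O3) : ∃ θ ς : ℝ, (ς = 1 ∨ ς = -1) ∧ ∀ (α β : ℕ → ℝ) (k : ℕ),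
    ∃ t : ℝ, k * π ≤ t ∧ t ≤ (k + 1) * π ∧
      ‖upath α t - act h (upath β t)‖ ≤ 2 * |sin ((θ + ς * α k - β k) / 2)| := by
  set n : E3 := e3 - act h e3 with hn
  set S : E3 ≃ₗᵢ[ℝ] E3 := (ℝ ∙ n)ᗮ.reflection with hS
  have hSe : S e3 = act h e3 := Submodule.reflection_sub (by rw [norm_act])
  set L : E3 ≃ₗᵢ[ℝ] E3 := S.trans (actE h).symm with hLdef
  have hL : ∀ x, act h (L x) = S x := by
    intro x
    have : actE h ((actE h).symm (S x)) = S x := LinearIsometryEquiv.apply_symm_apply _ _
    exact this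
  have hLe : L e3 = e3 := by
    have h1 : act h (L e3) = act h e3 := by rw [hL, hSe]
    exact (actE h).injective h1
  obtain ⟨θ, ς, hς, hLuv⟩ := isometry_fix_pole L hLe
  refine ⟨θ, ς, hς, fun α β k => ?_⟩
  have hpi := pi_pos
  -- a time at which the first player is on the bisecting plane
  have hzero : ∃ t : ℝ, k * π ≤ t ∧ t ≤ (k + 1) * π ∧ ⟪n, upath α t⟫ = 0 := by
    set f : ℝ → ℝ := fun t => ⟪n, |sin t| • uv (α k) + cos t • e3⟫ with hf
    have hfc : Continuous f := by fun_prop
    have hne : 0 ≤ ⟪n, e3⟫ := by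
      rw [hn, inner_sub_left, real_inner_self_eq_norm_sq, norm_e3]
      have := real_inner_le_norm (act h e3) e3
      rw [norm_act, norm_e3] at this
      linarith
    have hend : ∀ m : ℕ, f (m * π) = (-1) ^ m * ⟪n, e3⟫ := by
      intro m
      simp only [hf, sin_nat_mul_pi, abs_zero, zero_smul, zero_add, cos_nat_mul_pi]
      rw [inner_smul_right]
    have hk0 := hend k
    have hk1 := hend (k + 1)
    have hle : (k : ℝ) * π ≤ ((k + 1 : ℕ) : ℝ) * π := by push_cast; nlinarith
    have hz : (0 : ℝ) ∈ f '' Icc (k * π) (((k + 1 : ℕ) : ℝ) * π) := by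
      have hcont : ContinuousOn f (Icc (k * π) (((k + 1 : ℕ) : ℝ) * π)) := hfc.continuousOn
      rcases neg_one_pow_eq_or ℝ k with he | he
      · rw [he] at hk0
        rw [pow_succ, he] at hk1
        exact intermediate_value_Icc' hle hcont ⟨by rw [hk1]; linarith, by rw [hk0]; linarith⟩
      · rw [he] at hk0
        rw [pow_succ, he] at hk1
        exact intermediate_value_Icc hle hcont ⟨by rw [hk0]; linarith, by rw [hk1]; linarith⟩
    obtain ⟨t, ht, ht0⟩ := hz
    have ht1 : t ≤ (k + 1) * π := by have := ht.2; push_cast at this; exact this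
    refine ⟨t, ht.1, ht1, ?_⟩
    rw [upath_congr_dir k ht.1 ht1]
    exact ht0
  obtain ⟨t, ht0, ht1, ht⟩ := hzero
  refine ⟨t, ht0, ht1, ?_⟩
  have hfix : S (upath α t) = upath α t := by
    rw [hS]
    apply Submodule.reflection_mem_subspace_eq_self
    rw [Submodule.mem_orthogonal_singleton_iff_inner_right]
    exact ht
  have e1 : upath α t - act h (upath β t) = act h (L (upath α t) - upath β t) := by
    rw [act_sub, hL, hfix]
  have e2 : L (upath α t) - upath β t = |sin t| • (uv (θ + ς * α k) - uv (β k)) := by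
    rw [upath_congr_dir k ht0 ht1, upath_congr_dir k ht0 ht1, map_add, map_smul, map_smul, hLe,
      hLuv, smul_sub]
    abel
  rw [e1, norm_act, e2, norm_smul, norm_uv_sub, Real.norm_eq_abs, abs_abs]
  have h1 : |sin t| ≤ 1 := abs_sin_le_one t
  have h2 : 0 ≤ 2 * |sin ((θ + ς * α k - β k) / 2)| := by positivity
  calc _ ≤ 1 * (2 * |sin ((θ + ς * α k - β k) / 2)|) := mul_le_mul_of_nonneg_right h1 h2
    _ = _ := one_mul _

end Astro
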