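import Pool.Agent.Lib.H33Astro.Lower

/-!
# Paths made of half great circles
-/

set_option autoImplicit false

noncomputable section

open MeasureTheory Metric Set Real Filter Topology
open scoped RealInnerProductSpace NNReal ENNReal

namespace Astro

/-- Horizontal unit vector of direction `α`. -/
def uv (α : ℝ) : E3 := !₂[cos α, sin α, 0]

@[simp] theorem uv_0 (α : ℝ) : uv α 0 = cos α := rfl
@[simp] theorem uv_1 (α : ℝ) : uv α 1 = sin α := rfl
@[simp] theorem uv_2 (α : ℝ) : uv α 2 = 0 := rfl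

/-- The unit path that runs from pole to pole along half great circles, the `k`-th of them in
direction `α k`. -/
def upath (α : ℕ → ℝ) (t : ℝ) : E3 := |sin t| • uv (α ⌊t / π⌋₊) + cos t • e3

theorem upath_0 (α : ℕ → ℝ) (t : ℝ) : upath α t 0 = |sin t| * cos (α ⌊t / π⌋₊) := by
  simp [upath]

theorem upath_1 (α : ℕ → ℝ) (t : ℝ) : upath α t 1 = |sin t| * sin (α ⌊t / π⌋₊) := by
  simp [upath]

theorem upath_2 (α : ℕ → ℝ) (t : ℝ) : upath α t 2 = cos t := by
  simp [upath]

theorem norm_upath (α : ℕ → ℝ) (t : ℝ) : ‖upath α t‖ = 1 := by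
  have : ‖upath α t‖ ^ 2 = 1 := by
    rw [normsq3, upath_0, upath_1, upath_2, mul_pow, mul_pow, sq_abs]
    have h1 := sin_sq_add_cos_sq (α ⌊t / π⌋₊)
    have h2 := sin_sq_add_cos_sq t
    calc _ = sin t ^ 2 * (sin (α ⌊t / π⌋₊) ^ 2 + cos (α ⌊t / π⌋₊) ^ 2) + cos t ^ 2 := by ring
      _ = 1 := by rw [h1]; linarith
  exact (pow_eq_one_iff_of_nonneg (norm_nonneg _) two_ne_zero).mp this

theorem upath_zero (α : ℕ → ℝ) : upath α 0 = e3 := by
  simp [upath]

/-- At a multiple of `π` the direction does not matter. -/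
theorem upath_congr_dir {α : ℕ → ℝ} {t : ℝ} (k : ℕ) (h0 : k * π ≤ t) (h1 : t ≤ (k + 1) * π) :
    upath α t = |sin t| • uv (α k) + cos t • e3 := by
  have hpi := pi_pos
  rcases h1.eq_or_lt with h | h
  · have hs : sin t = 0 := by
      rw [h]
      have := sin_nat_mul_pi (k + 1)
      push_cast at this
      exact this
    simp [upath, hs]
  · have hk : ⌊t / π⌋₊ = k := by
      rw [Nat.floor_eq_iff (by
        have : 0 ≤ (k : ℝ) * π := by positivity
        exact div_nonneg (by linarith) hpi.le)]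
      constructor
      · rw [le_div_iff₀ hpi]; exact h0
      · rw [div_lt_iff₀ hpi]; exact h
    rw [upath, hk]

theorem abs_sin_mul {s t : ℝ} (k : ℕ) (hs0 : k * π ≤ s) (hs1 : s ≤ (k + 1) * π)
    (ht0 : k * π ≤ t) (ht1 : t ≤ (k + 1) * π) : |sin s| * |sin t| = sin s * sin t := by
  have e : ∀ x : ℝ, k * π ≤ x → x ≤ (k + 1) * π → 0 ≤ (-1) ^ k * sin x := by
    intro x h0 h1
    have h2 : 0 ≤ sin (x - k * π) := sin_nonneg_of_nonneg_of_le_pi (by linarith) (by linarith)
    rw [sin_sub_nat_mul_pi] at h2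
    exact h2
  rw [← abs_mul]
  apply abs_of_nonneg
  have h1 := mul_nonneg (e s hs0 hs1) (e t ht0 ht1)
  have h2 : ((-1 : ℝ) ^ k * sin s) * ((-1) ^ k * sin t) = sin s * sin t := by
    have : ((-1 : ℝ) ^ k) * (-1) ^ k = 1 := by rw [← mul_pow]; simp
    calc _ = ((-1 : ℝ) ^ k * (-1) ^ k) * (sin s * sin t) := by ring
      _ = _ := by rw [this, one_mul]
  rw [h2] at h1
  exact h1

theorem inner_upath_same {α : ℕ → ℝ} {s t : ℝ} (k : ℕ) (hs0 : k * π ≤ s) (hs1 : s ≤ (k + 1) * π)
    (ht0 : k * π ≤ t) (ht1 : t ≤ (k + 1) * π) : ⟪upath α s, upath α t⟫ = cos (s - t) := by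
  rw [upath_congr_dir k hs0 hs1, upath_congr_dir k ht0 ht1, inner3]
  simp
  have h1 := abs_sin_mul k hs0 hs1 ht0 ht1
  have h2 := sin_sq_add_cos_sq (α k)
  rw [cos_sub]
  calc _ = (|sin s| * |sin t|) * (sin (α k) ^ 2 + cos (α k) ^ 2) + cos s * cos t := by ring
    _ = _ := by rw [h1, h2]; ring

theorem angle_upath_same {α : ℕ → ℝ} {s t : ℝ} (k : ℕ) (hs0 : k * π ≤ s) (hs1 : s ≤ (k + 1) * π)
    (ht0 : k * π ≤ t) (ht1 : t ≤ (k + 1) * π) (hst : s ≤ t) :
    InnerProductGeometry.angle (upath α s) (upath α t) ≤ t - s := by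
  rw [InnerProductGeometry.angle, norm_upath, norm_upath, inner_upath_same k hs0 hs1 ht0 ht1,
    mul_one, div_one, ← cos_neg, neg_sub, arccos_cos (by linarith) (by linarith)]

theorem angle_upath {α : ℕ → ℝ} {s t : ℝ} (hs : 0 ≤ s) (hst : s ≤ t) :
    InnerProductGeometry.angle (upath α s) (upath α t) ≤ t - s := by
  have hpi := pi_pos
  by_cases hbig : π ≤ t - s
  · exact (InnerProductGeometry.angle_le_pi _ _).trans hbig
  rw [not_le] at hbig
  set k := ⌊s / π⌋₊ with hk
  have h1 : (k : ℝ) * π ≤ s := by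
    rw [← le_div_iff₀ hpi]; exact Nat.floor_le (div_nonneg hs hpi.le)
  have h2 : s < (k + 1) * π := by
    rw [← div_lt_iff₀ hpi]; exact Nat.lt_floor_add_one _
  by_cases ht : t ≤ (k + 1) * π
  · exact angle_upath_same k h1 h2.le (h1.trans hst) ht hst
  · rw [not_le] at ht
    have a1 := angle_upath_same (α := α) (s := s) (t := (k + 1) * π) k h1 h2.le
      (by nlinarith) le_rfl h2.le
    have a2 := angle_upath_same (α := α) (s := (k + 1) * π) (t := t) (k + 1)
      (by push_cast; exact le_rfl) (by push_cast; nlinarith) (by push_cast; exact ht.le)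
      (by push_cast; nlinarith) ht.le
    have a3 := InnerProductGeometry.angle_le_angle_add_angle (upath α s) (upath α ((k + 1) * π))
      (upath α t)
    linarith

theorem angle_upath_abs {α : ℕ → ℝ} {s t : ℝ} (hs : 0 ≤ s) (ht : 0 ≤ t) :
    InnerProductGeometry.angle (upath α s) (upath α t) ≤ |s - t| := by
  rcases le_total s t with h | h
  · rw [abs_sub_comm, abs_of_nonneg (by linarith)]
    exact angle_upath hs h
  · rw [abs_of_nonneg (by linarith), InnerProductGeometry.angle_comm]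
    exact angle_upath ht h

end Astro
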