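import Pool.Agent.Lib.H33Astro.Haar

/-!
# Volume of spherical sectors (after `Pool.Agent.Lib.H81.Gold.Cap`)
-/

set_option autoImplicit false

noncomputable section

open MeasureTheory Metric Set
open scoped RealInnerProductSpace Pointwise

namespace Astro

theorem inner3 (a b : E3) : ⟪a, b⟫ = a 0 * b 0 + a 1 * b 1 + a 2 * b 2 := by
  rw [PiLp.inner_apply, Fin.sum_univ_three]
  simp [mul_comm]

theorem normsq3 (a : E3) : ‖a‖ ^ 2 = a 0 ^ 2 + a 1 ^ 2 + a 2 ^ 2 := by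
  rw [← real_inner_self_eq_norm_sq, inner3]; ring

abbrev E2 := EuclideanSpace ℝ (Fin 2)

/-- Height and horizontal part of a point. -/
def split3 (x : E3) : ℝ × E2 := (x 0, WithLp.toLp 2 (fun i : Fin 2 => x i.succ))

theorem mp_split3 : MeasurePreserving split3 (volume : Measure E3) (volume : Measure (ℝ × E2)) := by
  have h1 : MeasurePreserving (@WithLp.ofLp 2 (Fin 3 → ℝ)) := PiLp.volume_preserving_ofLp (Fin 3)
  have h2 : MeasurePreserving (MeasurableEquiv.piFinSuccAbove (fun _ : Fin 3 => ℝ) 0) :=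
    volume_preserving_piFinSuccAbove (fun _ : Fin 3 => ℝ) 0
  have h3 : MeasurePreserving (Prod.map (id : ℝ → ℝ) (@WithLp.toLp 2 (Fin 2 → ℝ))) volume volume :=
    (MeasurePreserving.id volume).prod (PiLp.volume_preserving_toLp (Fin 2))
  have h4 := h3.comp (h2.comp h1)
  have : split3 = (Prod.map (id : ℝ → ℝ) (@WithLp.toLp 2 (Fin 2 → ℝ))) ∘
      ((MeasurableEquiv.piFinSuccAbove (fun _ : Fin 3 => ℝ) 0) ∘ (@WithLp.ofLp 2 (Fin 3 → ℝ))) := by
    funext x
    simp only [split3, Function.comp, Prod.map, id]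
    rfl
  rw [this]
  exact h4

theorem normsq_split (x : E3) : ‖x‖ ^ 2 = (split3 x).1 ^ 2 + ‖(split3 x).2‖ ^ 2 := by
  rw [normsq3, EuclideanSpace.norm_sq_eq]
  simp [split3, Fin.sum_univ_two]
  ring

/-- The sector in cylindrical coordinates. -/
def Tsec (k : ℝ) : Set (ℝ × E2) :=
  {p | p.1 ^ 2 + ‖p.2‖ ^ 2 ≤ 1 ∧ Real.sqrt (p.1 ^ 2 + ‖p.2‖ ^ 2) * k ≤ p.1}

theorem isClosed_Tsec (k : ℝ) : IsClosed (Tsec k) := by
  have h1 : IsClosed {p : ℝ × E2 | p.1 ^ 2 + ‖p.2‖ ^ 2 ≤ 1} :=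
    isClosed_le (by fun_prop) (by fun_prop)
  have h2 : IsClosed {p : ℝ × E2 | Real.sqrt (p.1 ^ 2 + ‖p.2‖ ^ 2) * k ≤ p.1} :=
    isClosed_le (by fun_prop) (by fun_prop)
  exact h1.inter h2

/-- slice of the sector at height `z`. -/
theorem slice_low {k z : ℝ} (hk0 : 0 < k) (hk1 : k ≤ 1) (hz0 : 0 ≤ z) (hzk : z ≤ k) :
    Prod.mk z ⁻¹' (Tsec k) = closedBall (0 : E2) (z * (Real.sqrt (1 - k ^ 2) / k)) := by
  have hk2 : 0 ≤ 1 - k ^ 2 := by nlinarith
  ext w
  simp only [Tsec, mem_preimage, mem_ofPred_eq, mem_closedBall, dist_zero_right]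
  have hr : 0 ≤ z * (Real.sqrt (1 - k ^ 2) / k) := by positivity
  have hsq : (z * (Real.sqrt (1 - k ^ 2) / k)) ^ 2 = z ^ 2 * (1 - k ^ 2) / k ^ 2 := by
    rw [mul_pow, div_pow, Real.sq_sqrt hk2]; ring
  constructor
  · rintro ⟨h1, h2⟩
    refine abs_le_of_sq_le_sq' ?_ hr |>.2
    rw [hsq, le_div_iff₀ (by positivity)]
    have h3 : (Real.sqrt (z ^ 2 + ‖w‖ ^ 2) * k) ^ 2 ≤ z ^ 2 := by
      apply pow_le_pow_left₀ (by positivity) h2
    rw [mul_pow, Real.sq_sqrt (by positivity)] at h3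
    nlinarith
  · intro h
    have h3 : ‖w‖ ^ 2 ≤ z ^ 2 * (1 - k ^ 2) / k ^ 2 := by
      rw [← hsq]; exact pow_le_pow_left₀ (norm_nonneg _) h 2
    rw [le_div_iff₀ (by positivity)] at h3
    have h4 : (z ^ 2 + ‖w‖ ^ 2) * k ^ 2 ≤ z ^ 2 := by nlinarith
    constructor
    · have h5 : z ^ 2 ≤ k ^ 2 := by nlinarith
      have h6 : (z ^ 2 + ‖w‖ ^ 2) * k ^ 2 ≤ 1 * k ^ 2 := by linarith
      exact le_of_mul_le_mul_right h6 (by positivity)
    · refine abs_le_of_sq_le_sq' ?_ hz0 |>.2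
      rw [mul_pow, Real.sq_sqrt (by positivity)]
      exact h4

theorem slice_high {k z : ℝ} (hk0 : 0 ≤ k) (hz0 : k < z) (hz1 : z ≤ 1) :
    Prod.mk z ⁻¹' (Tsec k) = closedBall (0 : E2) (Real.sqrt (1 - z ^ 2)) := by
  have hz : 0 < z := lt_of_le_of_lt hk0 hz0
  have hz2 : 0 ≤ 1 - z ^ 2 := by nlinarith
  ext w
  simp only [Tsec, mem_preimage, mem_ofPred_eq, mem_closedBall, dist_zero_right]
  constructor
  · rintro ⟨h1, h2⟩
    apply Real.le_sqrt_of_sq_le
    linarith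
  · intro h
    have h3 : ‖w‖ ^ 2 ≤ 1 - z ^ 2 := by
      rw [← Real.sq_sqrt hz2]; exact pow_le_pow_left₀ (norm_nonneg _) h 2
    refine ⟨by linarith, ?_⟩
    have h4 : Real.sqrt (z ^ 2 + ‖w‖ ^ 2) ≤ 1 := by
      rw [Real.sqrt_le_one]; linarith
    nlinarith [Real.sqrt_nonneg (z ^ 2 + ‖w‖ ^ 2)]

theorem slice_neg {k z : ℝ} (hk0 : 0 ≤ k) (hz : z < 0) :
    Prod.mk z ⁻¹' (Tsec k) = ∅ := by
  ext w
  simp only [Tsec, mem_preimage, mem_ofPred_eq, mem_empty_iff_false, iff_false, not_and, not_le]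
  intro _
  have : 0 ≤ Real.sqrt (z ^ 2 + ‖w‖ ^ 2) * k := by positivity
  linarith

theorem slice_big {k z : ℝ} (hz : 1 < z) :
    Prod.mk z ⁻¹' (Tsec k) = ∅ := by
  ext w
  simp only [Tsec, mem_preimage, mem_ofPred_eq, mem_empty_iff_false, iff_false, not_and, not_le]
  intro h
  exfalso
  nlinarith [sq_nonneg ‖w‖]

theorem vol_Tsec {k : ℝ} (hk0 : 0 ≤ k) (hk1 : k ≤ 1) :
    volume (Tsec k) = ENNReal.ofReal (2 * Real.pi / 3 * (1 - k)) := by
  have hm : MeasurableSet (Tsec k) := (isClosed_Tsec k).measurableSet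
  rw [Measure.volume_eq_prod, Measure.prod_apply hm]
  have e1 : ∫⁻ z, volume (Prod.mk z ⁻¹' (Tsec k)) =
      ∫⁻ z in Ioc 0 1, volume (Prod.mk z ⁻¹' (Tsec k)) := by
    rw [← lintegral_indicator measurableSet_Ioc]
    apply lintegral_congr_ae
    have : ∀ᵐ z : ℝ, z ≠ 0 := by
      simp [ae_iff, measure_singleton]
    filter_upwards [this] with z hz
    by_cases h : z ∈ Ioc (0 : ℝ) 1
    · rw [indicator_of_mem h]
    · rw [indicator_of_notMem h]
      rw [mem_Ioc, not_and_or, not_lt, not_le] at h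
      rcases h with h | h
      · rw [slice_neg hk0 (lt_of_le_of_ne h hz), measure_empty]
      · rw [slice_big h, measure_empty]
  rw [e1, ← Ioc_union_Ioc_eq_Ioc hk0 hk1,
    lintegral_union measurableSet_Ioc (Ioc_disjoint_Ioc_of_le le_rfl)]
  have e2 : ∫⁻ z in Ioc 0 k, volume (Prod.mk z ⁻¹' (Tsec k)) =
      ENNReal.ofReal (Real.pi * (1 - k ^ 2) * k / 3) := by
    rcases hk0.eq_or_lt with h0 | h0
    · subst h0; simp
    have hk2 : 0 ≤ 1 - k ^ 2 := by nlinarith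
    have : ∫⁻ z in Ioc 0 k, volume (Prod.mk z ⁻¹' (Tsec k)) =
        ∫⁻ z in Ioc 0 k, ENNReal.ofReal (Real.pi * ((1 - k ^ 2) / k ^ 2) * z ^ 2) := by
      apply setLIntegral_congr_fun measurableSet_Ioc
      intro z hz
      simp only
      rw [slice_low h0 hk1 hz.1.le hz.2, EuclideanSpace.volume_closedBall_fin_two,
        ← ENNReal.ofReal_pow (by have := hz.1; positivity), ← ENNReal.ofReal_mul (by positivity)]
      congr 1
      rw [mul_pow, div_pow, Real.sq_sqrt hk2]; ring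
    rw [this, ← ofReal_integral_eq_lintegral_ofReal]
    · congr 1
      rw [← intervalIntegral.integral_of_le h0.le, intervalIntegral.integral_const_mul, integral_pow]
      field_simp
      ring
    · apply Continuous.integrableOn_Ioc
      fun_prop
    · filter_upwards with z
      positivity
  have e3 : ∫⁻ z in Ioc k 1, volume (Prod.mk z ⁻¹' (Tsec k)) =
      ENNReal.ofReal (Real.pi * ((1 - k) - (1 - k ^ 3) / 3)) := by
    have : ∫⁻ z in Ioc k 1, volume (Prod.mk z ⁻¹' (Tsec k)) =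
        ∫⁻ z in Ioc k 1, ENNReal.ofReal (Real.pi * (1 - z ^ 2)) := by
      apply setLIntegral_congr_fun measurableSet_Ioc
      intro z hz
      have hz0 : 0 < z := lt_of_le_of_lt hk0 hz.1
      have hz2 : 0 ≤ 1 - z ^ 2 := by have := hz.2; nlinarith
      simp only
      rw [slice_high hk0 hz.1 hz.2, EuclideanSpace.volume_closedBall_fin_two,
        ← ENNReal.ofReal_pow (by positivity), ← ENNReal.ofReal_mul (by positivity)]
      congr 1
      rw [Real.sq_sqrt hz2]; ring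
    rw [this, ← ofReal_integral_eq_lintegral_ofReal]
    · congr 1
      rw [← intervalIntegral.integral_of_le hk1, intervalIntegral.integral_const_mul,
        intervalIntegral.integral_sub (by simp) (by simp), integral_pow]
      simp
      norm_num
    · apply Continuous.integrableOn_Ioc
      fun_prop
    · filter_upwards [self_mem_ae_restrict measurableSet_Ioc] with z hz
      have hz0 : 0 < z := lt_of_le_of_lt hk0 hz.1
      have hz2 : 0 ≤ 1 - z ^ 2 := by have := hz.2; nlinarith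
      positivity
  rw [e2, e3, ← ENNReal.ofReal_add]
  · congr 1; ring
  · have hk2 : 0 ≤ 1 - k ^ 2 := by nlinarith
    positivity
  · have : 0 ≤ (1 - k) - (1 - k ^ 3) / 3 := by nlinarith [mul_nonneg hk0 (sub_nonneg.2 hk1)]
    positivity

/-- Volume of a spherical sector. -/
theorem volume_sector {c : E3} (hc : ‖c‖ = 1) {k : ℝ} (hk0 : 0 ≤ k) (hk1 : k ≤ 1) :
    volume {x : E3 | ‖x‖ ≤ 1 ∧ ‖x‖ * k ≤ ⟪x, c⟫} =
      ENNReal.ofReal (2 * Real.pi / 3 * (1 - k)) := by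
  obtain ⟨b, hb⟩ := Orthonormal.exists_orthonormalBasis_extension_of_card_eq (𝕜 := ℝ) (E := E3)
    (ι := Fin 3) (by simp) (v := fun _ => c) (s := {0}) (by
      rw [orthonormal_iff_ite]
      rintro ⟨i, hi⟩ ⟨j, hj⟩
      obtain rfl := hi
      obtain rfl := hj
      simp [Set.domRestrict, hc])
  have hb0 : b 0 = c := hb 0 rfl
  have hmp : MeasurePreserving (split3 ∘ b.repr) (volume : Measure E3) (volume : Measure (ℝ × E2)) :=
    mp_split3.comp b.measurePreserving_repr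
  have hS : {x : E3 | ‖x‖ ≤ 1 ∧ ‖x‖ * k ≤ ⟪x, c⟫} =
      (split3 ∘ b.repr) ⁻¹' (Tsec k) := by
    ext x
    have e1 : ‖x‖ ^ 2 = (split3 (b.repr x)).1 ^ 2 + ‖(split3 (b.repr x)).2‖ ^ 2 := by
      rw [← normsq_split, LinearIsometryEquiv.norm_map]
    have e2 : ⟪x, c⟫ = (split3 (b.repr x)).1 := by
      rw [real_inner_comm, ← hb0, ← b.repr_apply_apply]; rfl
    simp only [Tsec, mem_preimage, mem_ofPred_eq, Function.comp]
    rw [← e1, ← e2, Real.sqrt_sq (norm_nonneg _), sq_le_one_iff₀ (norm_nonneg _)]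
  rw [hS, hmp.measure_preimage (isClosed_Tsec _).measurableSet.nullMeasurableSet,
    vol_Tsec hk0 hk1]

end Astro
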