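import Pool.Agent.Lib.H33Astro.Meet

/-!
# Strategies built from random directions
-/

set_option autoImplicit false

noncomputable section

open MeasureTheory Metric Set Real Filter Topology
open scoped RealInnerProductSpace NNReal ENNReal

namespace Astro

theorem norm_uv (a : ℝ) : ‖uv a‖ = 1 := by
  have : ‖uv a‖ ^ 2 = 1 := by rw [normsq3]; simp
  exact (pow_eq_one_iff_of_nonneg (norm_nonneg _) two_ne_zero).mp this

theorem continuous_uv : Continuous uv := by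
  have : uv = fun a => cos a • uv 0 + sin a • uv (π / 2) := by
    funext a
    ext i
    fin_cases i <;> simp [uv]
  rw [this]
  fun_prop

theorem floor_eventually {x : ℝ} (hx : 0 ≤ x) (h : ∀ k : ℕ, x ≠ k) :
    ∀ᶠ y in 𝓝 x, ⌊y⌋₊ = ⌊x⌋₊ := by
  have h1 : (⌊x⌋₊ : ℝ) < x := lt_of_le_of_ne (Nat.floor_le hx) (fun e => h _ e.symm)
  have h2 : x < ⌊x⌋₊ + 1 := Nat.lt_floor_add_one x
  filter_upwards [Ioo_mem_nhds h1 h2] with y hy
  rw [Nat.floor_eq_iff (by have : (0 : ℝ) ≤ ⌊x⌋₊ := by positivity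
                           linarith [hy.1])]
  exact ⟨hy.1.le, hy.2⟩

theorem continuous_upath : Continuous (fun p : (ℕ → ℝ) × ℝ≥0 => upath p.1 (p.2 : ℝ)) := by
  have hpi := pi_pos
  unfold upath
  apply Continuous.add
  · rw [continuous_iff_continuousAt]
    rintro ⟨α₀, t₀⟩
    by_cases hs : sin (t₀ : ℝ) = 0
    · -- the vector tends to zero
      have h0 : |sin (t₀ : ℝ)| • uv (α₀ ⌊(t₀ : ℝ) / π⌋₊) = 0 := by rw [hs]; simp
      unfold ContinuousAt
      simp only [h0]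
      rw [tendsto_zero_iff_norm_tendsto_zero]
      have h1 : ∀ p : (ℕ → ℝ) × ℝ≥0, ‖|sin (p.2 : ℝ)| • uv (p.1 ⌊(p.2 : ℝ) / π⌋₊)‖ =
          |sin (p.2 : ℝ)| := by
        intro p
        rw [norm_smul, norm_uv, mul_one, Real.norm_eq_abs, abs_abs]
      simp_rw [h1]
      have h2 : Continuous (fun p : (ℕ → ℝ) × ℝ≥0 => |sin (p.2 : ℝ)|) := by fun_prop
      have h3 := h2.tendsto (α₀, t₀)
      simp only [hs, abs_zero] at h3
      exact h3
    · have hk : ∀ k : ℕ, (t₀ : ℝ) / π ≠ k := by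
        intro k hk
        apply hs
        have : (t₀ : ℝ) = k * π := by rw [← hk]; field_simp
        rw [this, sin_nat_mul_pi]
      have hev : ∀ᶠ p : (ℕ → ℝ) × ℝ≥0 in 𝓝 (α₀, t₀), ⌊(p.2 : ℝ) / π⌋₊ = ⌊(t₀ : ℝ) / π⌋₊ := by
        have hc : Continuous (fun p : (ℕ → ℝ) × ℝ≥0 => (p.2 : ℝ) / π) := by fun_prop
        exact (hc.tendsto (α₀, t₀)).eventually (floor_eventually (by positivity) hk)
      have hc2 : ContinuousAt (fun p : (ℕ → ℝ) × ℝ≥0 =>
          |sin (p.2 : ℝ)| • uv (p.1 ⌊(t₀ : ℝ) / π⌋₊)) (α₀, t₀) := by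
        have : Continuous (fun p : (ℕ → ℝ) × ℝ≥0 =>
            |sin (p.2 : ℝ)| • uv (p.1 ⌊(t₀ : ℝ) / π⌋₊)) := by
          have c1 : Continuous (fun p : (ℕ → ℝ) × ℝ≥0 => |sin (p.2 : ℝ)|) := by fun_prop
          have c2 : Continuous (fun p : (ℕ → ℝ) × ℝ≥0 => uv (p.1 ⌊(t₀ : ℝ) / π⌋₊)) :=
            continuous_uv.comp (by fun_prop)
          exact c1.smul c2
        exact this.continuousAt
      refine hc2.congr ?_
      filter_upwards [hev] with p hp
      rw [hp]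
  · fun_prop

theorem continuous_upath_div {ρ : ℝ} (hρ : 0 < ρ) :
    Continuous (fun p : (ℕ → ℝ) × ℝ≥0 => upath p.1 ((p.2 : ℝ) / ρ)) := by
  have hφ : Continuous (fun p : (ℕ → ℝ) × ℝ≥0 => (p.1, p.2 / ρ.toNNReal)) := by fun_prop
  refine (continuous_upath.comp hφ).congr (fun p => ?_)
  show upath p.1 ((p.2 / ρ.toNNReal : ℝ≥0) : ℝ) = upath p.1 ((p.2 : ℝ) / ρ)
  rw [NNReal.coe_div, Real.coe_toNNReal _ hρ.le]

/-- The position at time `t`. -/
def pos (ρ : ℝ) (A : O3) (α : ℕ → ℝ) (t : ℝ≥0) : E3 := ρ • act A (upath α ((t : ℝ) / ρ))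

theorem continuous_pos' {ρ : ℝ} (hρ : 0 < ρ) (A : O3) :
    Continuous (fun p : (ℕ → ℝ) × ℝ≥0 => pos ρ A p.1 p.2) :=
  ((continuous_act_right A).comp (continuous_upath_div hρ)).const_smul ρ

theorem continuous_pos_right {ρ : ℝ} (hρ : 0 < ρ) (A : O3) (α : ℕ → ℝ) :
    Continuous (pos ρ A α) := by
  have hφ : Continuous (fun t : ℝ≥0 => (α, t)) := by fun_prop
  have h := Continuous.comp (continuous_pos' hρ A) hφ
  refine h.congr (fun t => ?_)
  rfl

theorem pos_zero {ρ : ℝ} {N : E3} (hρ : 0 < ρ) (A : O3) (hA : act A e3 = ρ⁻¹ • N) (α : ℕ → ℝ) :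
    pos ρ A α 0 = N := by
  unfold pos
  rw [NNReal.coe_zero, zero_div, upath_zero, hA, smul_smul, mul_inv_cancel₀ hρ.ne', one_smul]

theorem norm_pos {ρ : ℝ} (hρ : 0 < ρ) (A : O3) (α : ℕ → ℝ) (t : ℝ≥0) : ‖pos ρ A α t‖ = ρ := by
  unfold pos
  rw [norm_smul, norm_act, norm_upath, mul_one, Real.norm_of_nonneg hρ.le]

theorem gdist_pos {ρ : ℝ} (hρ : 0 < ρ) (A : O3) (α : ℕ → ℝ) (s t : ℝ≥0) :
    gdist ρ (pos ρ A α s) (pos ρ A α t) ≤ dist s t := by
  unfold gdist pos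
  rw [InnerProductGeometry.angle_smul_left_of_pos _ _ hρ,
    InnerProductGeometry.angle_smul_right_of_pos _ _ hρ, angle_act]
  have := angle_upath_abs (α := α) (s := (s / ρ : ℝ)) (t := (t / ρ : ℝ)) (by positivity)
    (by positivity)
  rw [← sub_div, abs_div, abs_of_pos hρ, le_div_iff₀ hρ] at this
  rw [NNReal.dist_eq, mul_comm]
  exact this

/-- The path on the sphere of radius `ρ` built from a sequence of directions. -/
def mkPath {ρ : ℝ} {N : E3} (hρ : 0 < ρ) (A : O3) (hA : act A e3 = ρ⁻¹ • N) (α : ℕ → ℝ) :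
    Paths ρ N :=
  ⟨⟨pos ρ A α, continuous_pos_right hρ A α⟩, pos_zero hρ A hA α, norm_pos hρ A α, gdist_pos hρ A α⟩

theorem mkPath_apply {ρ : ℝ} {N : E3} (hρ : 0 < ρ) (A : O3) (hA : act A e3 = ρ⁻¹ • N) (α : ℕ → ℝ)
    (t : ℝ≥0) : (mkPath hρ A hA α).1 t = ρ • act A (upath α (t / ρ : ℝ)) := rfl

theorem continuous_mkPath {ρ : ℝ} {N : E3} (hρ : 0 < ρ) (A : O3) (hA : act A e3 = ρ⁻¹ • N) :
    Continuous (mkPath hρ A hA) := by
  apply Continuous.subtype_mk
  apply ContinuousMap.continuous_of_continuous_uncurry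
  exact continuous_pos' hρ A

/-- Rotating the frame about the pole shifts all directions. -/
theorem act_rot_upath (β : ℝ) (α : ℕ → ℝ) (t : ℝ) :
    act (rot β) (upath α t) = upath (fun k => α k + β) t := by
  ext i
  fin_cases i
  · show act (rot β) (upath α t) 0 = upath (fun k => α k + β) t 0
    rw [rot_act_0, upath_0, upath_1, upath_0, cos_add]; ring
  · show act (rot β) (upath α t) 1 = upath (fun k => α k + β) t 1
    rw [rot_act_1, upath_0, upath_1, upath_1, sin_add]; ring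
  · show act (rot β) (upath α t) 2 = upath (fun k => α k + β) t 2
    rw [rot_act_2, upath_2, upath_2]

/-- A meeting within the `k`-th half great circle. -/
theorem meetTime_le {ρ r : ℝ} {N : E3} (hρ : 0 < ρ) (hr0 : 0 ≤ r) (hr : r ≤ π * ρ) (A : O3)
    (hA : act A e3 = ρ⁻¹ • N) (g₁ g₂ : O3) (α β : ℕ → ℝ) {δ : ℝ} (hδ : 2 * sin (r / (2 * ρ)) ≥ δ)
    {t : ℝ} (ht0 : 0 ≤ t)
    (h : ‖upath α t - act ((g₁ * A)⁻¹ * (g₂ * A)) (upath β t)‖ ≤ δ) :
    meetTime r g₁ g₂ (mkPath hρ A hA α) (mkPath hρ A hA β) ≤ ENNReal.ofReal (ρ * t) := by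
  unfold meetTime
  set s : ℝ≥0 := Real.toNNReal (ρ * t) with hs
  have hs' : (s : ℝ) / ρ = t := by
    rw [hs, Real.coe_toNNReal _ (by positivity)]; field_simp
  refine iInf₂_le_of_le s ?_ le_rfl
  rw [mkPath_apply, mkPath_apply, hs', act_smul, act_smul, ← act_mul, ← act_mul]
  rw [gdist_le_iff hρ hr0 hr]
  · rw [inner_smul_left, inner_smul_right]
    simp only [conj_trivial]
    have e1 : ⟪act (g₁ * A) (upath α t), act (g₂ * A) (upath β t)⟫ =
        ⟪upath α t, act ((g₁ * A)⁻¹ * (g₂ * A)) (upath β t)⟫ := by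
      rw [← inner_act (g₁ * A) (upath α t), ← act_mul (g₁ * A), mul_inv_cancel_left]
    rw [e1]
    set y := act ((g₁ * A)⁻¹ * (g₂ * A)) (upath β t) with hy
    have hyn : ‖y‖ = 1 := by rw [hy, norm_act, norm_upath]
    have e2 : ⟪upath α t, y⟫ = 1 - ‖upath α t - y‖ ^ 2 / 2 := by
      rw [norm_sub_sq_real, norm_upath, hyn]; ring
    have hδ0 : 0 ≤ δ := (norm_nonneg _).trans h
    have e3 : ‖upath α t - y‖ ^ 2 ≤ (2 * sin (r / (2 * ρ))) ^ 2 :=
      pow_le_pow_left₀ (norm_nonneg _) (h.trans hδ) 2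
    have e4 : cos (r / ρ) = 1 - 2 * sin (r / (2 * ρ)) ^ 2 := by
      have : r / ρ = 2 * (r / (2 * ρ)) := by field_simp
      rw [this, cos_two_mul]
      have := sin_sq_add_cos_sq (r / (2 * ρ))
      linarith
    rw [e2, e4]
    nlinarith [sq_nonneg ρ, mul_pos hρ hρ]
  · rw [norm_smul, norm_act, norm_upath, mul_one, Real.norm_of_nonneg hρ.le]
  · rw [norm_smul, norm_act, norm_upath, mul_one, Real.norm_of_nonneg hρ.le]

end Astro
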