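import Pool.Agent.Lib.H33Astro.Comb

/-!
# The upper bound
-/

set_option autoImplicit false

noncomputable section

open MeasureTheory Metric Set Real Filter Topology
open scoped RealInnerProductSpace NNReal ENNReal

namespace Astro

attribute [local irreducible] meetTime

/-- Averaging over rotations of the second frame. -/
theorem lintegral_avg {K : ℕ} [NeZero K] (Q : ZMod K → O3) {F : O3 → ℝ≥0∞} (hF : Measurable F)
    {C : ℝ≥0∞} (h : ∀ g, ∑ i : ZMod K, F (g * Q i) ≤ C) :
    (K : ℝ≥0∞) * ∫⁻ g, F g ∂haarO3 ≤ C := by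
  have h1 : ∀ i : ZMod K, ∫⁻ g, F (g * Q i) ∂haarO3 = ∫⁻ g, F g ∂haarO3 :=
    fun i => lintegral_mul_right_eq_self F (Q i)
  calc (K : ℝ≥0∞) * ∫⁻ g, F g ∂haarO3 = ∑ i : ZMod K, ∫⁻ g, F (g * Q i) ∂haarO3 := by
        simp_rw [h1]
        rw [Finset.sum_const, Finset.card_univ, ZMod.card, nsmul_eq_mul]
    _ = ∫⁻ g, ∑ i : ZMod K, F (g * Q i) ∂haarO3 := by
        rw [lintegral_finsetSum]
        intro i _
        exact hF.comp (measurable_mul_const (Q i))
    _ ≤ ∫⁻ _ : O3, C ∂haarO3 := lintegral_mono h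
    _ = C := by simp

/-- Bound for two given label sequences. -/
def Bd {n : ℕ} (ρ : ℝ) (K : ℕ) (ω ω' : ℕ → Fin n) : ℝ≥0∞ :=
  (∑' j : ℕ, {q : (ℕ → Fin n) × (ℕ → Fin n) | ∀ i < j + 1, q.1 i = q.2 i}.indicator
    (fun _ => ENNReal.ofReal (π * ρ * K)) (ω, ω')) + ENNReal.ofReal (π * ρ * (K + 1) / 2)

theorem lintegral_pair_le {ρ r : ℝ} {N : E3} (hρ : 0 < ρ) (hr0 : 0 ≤ r) (hr : r ≤ π * ρ) (A : O3)
    (hA : act A e3 = ρ⁻¹ • N) {n K : ℕ} [NeZero K]
    (hK : ∀ m : ℕ, 1 ≤ m → m ≤ 2 * n → Nat.Coprime m K) (hKr : π * ρ ≤ r * K)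
    (ω ω' : ℕ → Fin n) :
    ∫⁻ g : O3 × O3, meetTime r g.1 g.2 (mkPath hρ A hA (dir K ω)) (mkPath hρ A hA (dir K ω'))
      ∂(haarO3.prod haarO3) ≤ Bd ρ K ω ω' := by
  have hpi := pi_pos
  have hKpos : 0 < K := Nat.pos_of_ne_zero (NeZero.ne K)
  have hK' : (0 : ℝ) < K := by exact_mod_cast hKpos
  by_cases hne : ∃ j, ω j ≠ ω' j
  · classical
    set J := Nat.find hne with hJdef
    have hJ : ω J ≠ ω' J := Nat.find_spec hne
    have hJmin : ∀ i < J, ω i = ω' i := fun i hi => by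
      have := Nat.find_min hne hi
      simpa using this
    have hBd : ENNReal.ofReal (π * ρ * (K * J + (K + 1) / 2)) ≤ Bd ρ K ω ω' := by
      unfold Bd
      have e1 : ENNReal.ofReal (π * ρ * (K * J + (K + 1) / 2)) =
          ∑ j ∈ Finset.range J, ENNReal.ofReal (π * ρ * K) + ENNReal.ofReal (π * ρ * (K + 1) / 2) := by
        rw [Finset.sum_const, Finset.card_range, nsmul_eq_mul, ← ENNReal.ofReal_natCast,
          ← ENNReal.ofReal_mul (by positivity), ← ENNReal.ofReal_add (by positivity) (by positivity)]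
        congr 1
        ring
      rw [e1]
      apply add_le_add _ le_rfl
      calc ∑ j ∈ Finset.range J, ENNReal.ofReal (π * ρ * K)
          = ∑ j ∈ Finset.range J,
            {q : (ℕ → Fin n) × (ℕ → Fin n) | ∀ i < j + 1, q.1 i = q.2 i}.indicator
              (fun _ => ENNReal.ofReal (π * ρ * K)) (ω, ω') := by
            apply Finset.sum_congr rfl
            intro j hj
            rw [indicator_of_mem]
            intro i hi
            exact hJmin i (by have := Finset.mem_range.mp hj; omega)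
        _ ≤ _ := ENNReal.sum_le_tsum _
    refine le_trans ?_ hBd
    refine (lintegral_prod_le _).trans ?_
    have hmeas := measurable_meetTime (ρ := ρ) (r := r) N hρ hr0 hr
    have hfix : ∀ g₁ : O3, ∫⁻ g₂, meetTime r g₁ g₂ (mkPath hρ A hA (dir K ω))
        (mkPath hρ A hA (dir K ω')) ∂haarO3 ≤ ENNReal.ofReal (π * ρ * (K * J + (K + 1) / 2)) := by
      intro g₁
      have hφ : Measurable (fun g₂ : O3 => (((g₁, g₂), (mkPath hρ A hA (dir K ω),
          mkPath hρ A hA (dir K ω'))) : Om ρ N)) :=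
        (measurable_const.prodMk measurable_id).prodMk measurable_const
      have hTm : Measurable (fun g₂ => meetTime r g₁ g₂ (mkPath hρ A hA (dir K ω))
        (mkPath hρ A hA (dir K ω'))) := hmeas.comp hφ
      have h1 := lintegral_avg (K := K) (fun i => A * rot (2 * π / K * i.val) * A⁻¹) hTm
        (fun g₂ => sum_meetTime_le hρ hr0 hr A hA hK hKr ω ω' J hJ g₁ g₂)
      have hKne : (K : ℝ≥0∞) ≠ 0 := by exact_mod_cast hKpos.ne'
      rw [← ENNReal.mul_le_mul_iff_right hKne (ENNReal.natCast_ne_top K)]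
      refine h1.trans (le_of_eq ?_)
      rw [← ENNReal.ofReal_natCast, ← ENNReal.ofReal_mul (by positivity)]
      congr 1
      ring
    calc _ ≤ ∫⁻ _ : O3, ENNReal.ofReal (π * ρ * (K * J + (K + 1) / 2)) ∂haarO3 :=
          lintegral_mono hfix
      _ = _ := by simp
  · push Not at hne
    have : Bd ρ K ω ω' = ⊤ := by
      unfold Bd
      have h1 : ∀ j : ℕ, {q : (ℕ → Fin n) × (ℕ → Fin n) | ∀ i < j + 1, q.1 i = q.2 i}.indicator
          (fun _ => ENNReal.ofReal (π * ρ * K)) (ω, ω') = ENNReal.ofReal (π * ρ * K) := by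
        intro j
        rw [indicator_of_mem]
        intro i _
        exact hne i
      simp_rw [h1]
      rw [ENNReal.tsum_const_eq_top_of_ne_zero, top_add]
      rw [Ne, ENNReal.ofReal_eq_zero, not_le]
      positivity
    rw [this]
    exact le_top

/-- The uniform measure on the labels. -/
def unif (n : ℕ) [NeZero n] : Measure (Fin n) := (PMF.uniformOfFintype (Fin n)).toMeasure

instance (n : ℕ) [NeZero n] : IsProbabilityMeasure (unif n) := by unfold unif; infer_instance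

theorem unif_singleton (n : ℕ) [NeZero n] (x : Fin n) : unif n {x} = (n : ℝ≥0∞)⁻¹ := by
  unfold unif
  rw [PMF.toMeasure_apply_singleton _ _ (measurableSet_singleton x), PMF.uniformOfFintype_apply,
    Fintype.card_fin]

/-- The law of the label sequence. -/
def labels (n : ℕ) [NeZero n] : Measure (ℕ → Fin n) := Measure.infinitePi (fun _ => unif n)

instance (n : ℕ) [NeZero n] : IsProbabilityMeasure (labels n) := by unfold labels; infer_instance

theorem measurableSet_agree (n j : ℕ) :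
    MeasurableSet {q : (ℕ → Fin n) × (ℕ → Fin n) | ∀ i < j, q.1 i = q.2 i} := by
  have : {q : (ℕ → Fin n) × (ℕ → Fin n) | ∀ i < j, q.1 i = q.2 i} =
      ⋂ i ∈ Finset.range j, {q : (ℕ → Fin n) × (ℕ → Fin n) | q.1 i = q.2 i} := by
    ext q; simp
  rw [this]
  apply Finset.measurableSet_biInter
  intro i _
  exact measurableSet_eq_fun (by fun_prop) (by fun_prop)

theorem prob_agree (n j : ℕ) [NeZero n] :
    ((labels n).prod (labels n)) {q | ∀ i < j, q.1 i = q.2 i} = ((n : ℝ≥0∞)⁻¹) ^ j := by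
  rw [Measure.prod_apply_symm (measurableSet_agree n j)]
  have : ∀ ω' : ℕ → Fin n, labels n ((fun ω => (ω, ω')) ⁻¹'
      {q : (ℕ → Fin n) × (ℕ → Fin n) | ∀ i < j, q.1 i = q.2 i}) = ((n : ℝ≥0∞)⁻¹) ^ j := by
    intro ω'
    have e1 : (fun ω => (ω, ω')) ⁻¹'
      {q : (ℕ → Fin n) × (ℕ → Fin n) | ∀ i < j, q.1 i = q.2 i} =
      Set.pi (Finset.range j : Set ℕ) (fun i => {ω' i}) := by
      ext ω
      simp [Set.mem_pi]
    rw [e1, labels, Measure.infinitePi_pi _ (fun i _ => measurableSet_singleton _)]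
    simp_rw [unif_singleton]
    rw [Finset.prod_const, Finset.card_range]
  simp_rw [this]
  simp

theorem lintegral_Bd (ρ : ℝ) (n K : ℕ) [NeZero n] :
    ∫⁻ q : (ℕ → Fin n) × (ℕ → Fin n), Bd ρ K q.1 q.2 ∂((labels n).prod (labels n)) =
      ENNReal.ofReal (π * ρ * K) * (∑' j : ℕ, ((n : ℝ≥0∞)⁻¹) ^ (j + 1)) +
        ENNReal.ofReal (π * ρ * (K + 1) / 2) := by
  unfold Bd
  rw [lintegral_add_right _ measurable_const, lintegral_const, measure_univ, mul_one]
  congr 1
  have h1 : ∀ j : ℕ, Measurable (fun q : (ℕ → Fin n) × (ℕ → Fin n) =>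
      {q : (ℕ → Fin n) × (ℕ → Fin n) | ∀ i < j + 1, q.1 i = q.2 i}.indicator
        (fun _ => ENNReal.ofReal (π * ρ * K)) (q.1, q.2)) :=
    fun j => Measurable.indicator measurable_const (measurableSet_agree n (j + 1))
  rw [lintegral_tsum (fun j => (h1 j).aemeasurable), ← ENNReal.tsum_mul_left]
  congr 1
  ext j
  have h2 := lintegral_indicator (μ := (labels n).prod (labels n)) (measurableSet_agree n (j + 1))
    (fun _ => ENNReal.ofReal (π * ρ * K))
  rw [setLIntegral_const, prob_agree] at h2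
  exact h2

theorem measurable_dir {n : ℕ} (K : ℕ) : Measurable (fun ω : ℕ → Fin n => dir K ω) := by
  rw [measurable_pi_iff]
  intro k
  unfold dir
  have h1 : Measurable (fun x : Fin n => 2 * π / K * (((x : ℕ) + 1 : ℝ) * (k % K : ℕ))) :=
    measurable_of_finite _
  exact h1.comp (measurable_pi_apply (k / K))

/-- The strategy. -/
def strat {ρ : ℝ} {N : E3} (hρ : 0 < ρ) (A : O3) (hA : act A e3 = ρ⁻¹ • N) (n K : ℕ) [NeZero n] :
    Measure (Paths ρ N) := (labels n).map (fun ω => mkPath hρ A hA (dir K ω))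

theorem measurable_stratMap {ρ : ℝ} {N : E3} (hρ : 0 < ρ) (A : O3) (hA : act A e3 = ρ⁻¹ • N)
    (n K : ℕ) : Measurable (fun ω : ℕ → Fin n => mkPath hρ A hA (dir K ω)) :=
  (continuous_mkPath hρ A hA).measurable.comp (measurable_dir K)

instance {ρ : ℝ} {N : E3} (hρ : 0 < ρ) (A : O3) (hA : act A e3 = ρ⁻¹ • N) (n K : ℕ) [NeZero n] :
    IsProbabilityMeasure (strat hρ A hA n K) :=
  Measure.isProbabilityMeasure_map (measurable_stratMap hρ A hA n K).aemeasurable

theorem expMeet_strat_le {ρ r : ℝ} {N : E3} (hρ : 0 < ρ) (hr0 : 0 ≤ r) (hr : r ≤ π * ρ) (A : O3)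
    (hA : act A e3 = ρ⁻¹ • N) {n K : ℕ} [NeZero n] [NeZero K]
    (hK : ∀ m : ℕ, 1 ≤ m → m ≤ 2 * n → Nat.Coprime m K) (hKr : π * ρ ≤ r * K) :
    expMeet r (strat hρ A hA n K) ≤
      ENNReal.ofReal (π * ρ * K) * (∑' j : ℕ, ((n : ℝ≥0∞)⁻¹) ^ (j + 1)) +
        ENNReal.ofReal (π * ρ * (K + 1) / 2) := by
  have hmeas := measurable_meetTime (ρ := ρ) (r := r) N hρ hr0 hr
  unfold expMeet
  rw [lintegral_prod_symm _ hmeas.aemeasurable]
  set F : Paths ρ N × Paths ρ N → ℝ≥0∞ := fun γ => ∫⁻ g : O3 × O3,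
    meetTime r g.1 g.2 γ.1 γ.2 ∂(haarO3.prod haarO3) with hF
  have hFm : Measurable F := by
    have : Measurable (fun q : (Paths ρ N × Paths ρ N) × (O3 × O3) =>
        meetTime r q.2.1 q.2.2 q.1.1 q.1.2) := hmeas.comp measurable_swap
    exact this.lintegral_prod_right'
  have hmap : (strat hρ A hA n K).prod (strat hρ A hA n K) =
      ((labels n).prod (labels n)).map (Prod.map (fun ω => mkPath hρ A hA (dir K ω))
        (fun ω => mkPath hρ A hA (dir K ω))) :=
    Measure.map_prod_map _ _ (measurable_stratMap hρ A hA n K) (measurable_stratMap hρ A hA n K)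
  rw [hmap, lintegral_map hFm ((measurable_stratMap hρ A hA n K).prodMap
    (measurable_stratMap hρ A hA n K)), ← lintegral_Bd]
  apply lintegral_mono
  intro q
  exact lintegral_pair_le hρ hr0 hr A hA hK hKr q.1 q.2

end Astro
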